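import Pool.Agent.Work.MP_943409_an.Interface

/-!
# MP_943409_an, block B: Baire category
-/

open Complex Filter Topology MeasureTheory Set
open scoped ComplexOrder InnerProductSpace

namespace Aluthge
namespace BB

/-- The space of weights. -/
abbrev X : Type := {v : ℕ → ℝ // IsV v}

theorem isClosed_isV : IsClosed {v : ℕ → ℝ | IsV v} := by
  have h : {v : ℕ → ℝ | IsV v} = {v | v 0 = 1} ∩ ((⋂ i : ℕ, {v | v i ≤ v (i + 1)}) ∩
      ⋂ i : ℕ, {v : ℕ → ℝ | ((i : ℝ) + 1) * v (i + 1) ≤ (i + 2) * v i}) := by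
    ext v
    simp only [IsV, mem_ofPred_eq, mem_inter_iff, mem_iInter]
  rw [h]
  refine IsClosed.inter (isClosed_eq (continuous_apply 0) continuous_const) (IsClosed.inter ?_ ?_)
  · exact isClosed_iInter (fun i => isClosed_le (continuous_apply i) (continuous_apply (i + 1)))
  · exact isClosed_iInter (fun i => isClosed_le (continuous_const.mul (continuous_apply (i + 1)))
      (continuous_const.mul (continuous_apply i)))

instance : PolishSpace X := isClosed_isV.polishSpace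

instance : BaireSpace X := by
  let _ := TopologicalSpace.upgradeIsCompletelyMetrizable X
  infer_instance

theorem isV_one : IsV (fun _ => 1) := by
  refine ⟨rfl, fun i => le_rfl, fun i => ?_⟩
  linarith

instance : Nonempty X := ⟨⟨_, isV_one⟩⟩

theorem isV_pos {v : ℕ → ℝ} (h : IsV v) (i : ℕ) : 0 < v i := by
  have : 1 ≤ v i := by
    induction i with
    | zero => exact h.1.ge
    | succ n ih => exact ih.trans (h.2.1 n)
  linarith

/-- constant tail -/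
noncomputable def cst (v : ℕ → ℝ) (J : ℕ) : ℕ → ℝ := fun i => v (min i J)

theorem isV_cst {v : ℕ → ℝ} (h : IsV v) (J : ℕ) : IsV (cst v J) := by
  refine ⟨?_, fun i => ?_, fun i => ?_⟩
  · simp only [cst, Nat.zero_min]; exact h.1
  · simp only [cst]
    rcases le_or_gt (i + 1) J with hi | hi
    · rw [min_eq_left hi, min_eq_left (by omega)]; exact h.2.1 i
    · rw [min_eq_right hi.le, min_eq_right (by omega)]
  · simp only [cst]
    rcases le_or_gt (i + 1) J with hi | hi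
    · rw [min_eq_left hi, min_eq_left (by omega)]; exact h.2.2 i
    · rw [min_eq_right hi.le, min_eq_right (by omega)]
      nlinarith [isV_pos h J]

/-- linear tail -/
noncomputable def lin (v : ℕ → ℝ) (J : ℕ) : ℕ → ℝ :=
  fun i => if i ≤ J then v i else v J / (J + 1) * (i + 1)

theorem lin_of_le {v : ℕ → ℝ} {J i : ℕ} (h : i ≤ J) : lin v J i = v i := by simp [lin, h]

theorem lin_of_ge {v : ℕ → ℝ} {J i : ℕ} (h : J ≤ i) : lin v J i = v J / (J + 1) * (i + 1) := by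
  rcases eq_or_lt_of_le h with rfl | h'
  · rw [lin_of_le le_rfl]
    field_simp
  · simp [lin, not_le.mpr h']

theorem isV_lin {v : ℕ → ℝ} (h : IsV v) (J : ℕ) : IsV (lin v J) := by
  have hp : 0 < v J / (J + 1) := div_pos (isV_pos h J) (by positivity)
  refine ⟨?_, fun i => ?_, fun i => ?_⟩
  · rw [lin_of_le (Nat.zero_le J)]; exact h.1
  · rcases le_or_gt (i + 1) J with hi | hi
    · rw [lin_of_le hi, lin_of_le (by omega)]; exact h.2.1 i
    · rw [lin_of_ge hi.le, lin_of_ge (by omega)]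
      push_cast
      nlinarith
  · rcases le_or_gt (i + 1) J with hi | hi
    · rw [lin_of_le hi, lin_of_le (by omega)]; exact h.2.2 i
    · rw [lin_of_ge hi.le, lin_of_ge (by omega)]
      push_cast
      nlinarith

theorem tendsto_cst (v : X) : Tendsto (fun J => (⟨cst v.1 J, isV_cst v.2 J⟩ : X)) atTop (𝓝 v) := by
  rw [tendsto_subtype_rng, tendsto_pi_nhds]
  intro i
  refine tendsto_const_nhds.congr' ?_
  filter_upwards [eventually_ge_atTop i] with J hJ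
  simp [cst, min_eq_left hJ]

theorem tendsto_lin (v : X) : Tendsto (fun J => (⟨lin v.1 J, isV_lin v.2 J⟩ : X)) atTop (𝓝 v) := by
  rw [tendsto_subtype_rng, tendsto_pi_nhds]
  intro i
  refine tendsto_const_nhds.congr' ?_
  filter_upwards [eventually_ge_atTop i] with J hJ
  exact (lin_of_le hJ).symm

theorem iterate_tendsto (hP3 : Stmt_P3) (hP5 : Stmt_P5) (T : ℕ → L2N →L[ℂ] L2N) (T₀ : L2N →L[ℂ] L2N)
    (C : ℝ) (hC : ∀ k, ‖T k‖ ≤ C) (h1 : ∀ x, Tendsto (fun k => T k x) atTop (𝓝 (T₀ x)))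
    (h2 : ∀ x, Tendsto (fun k => star (T k) x) atTop (𝓝 (star T₀ x))) (n : ℕ) :
    (∀ k, ‖alu^[n] (T k)‖ ≤ C) ∧ (∀ x, Tendsto (fun k => alu^[n] (T k) x) atTop (𝓝 (alu^[n] T₀ x))) ∧
    (∀ x, Tendsto (fun k => star (alu^[n] (T k)) x) atTop (𝓝 (star (alu^[n] T₀) x))) := by
  induction n with
  | zero => exact ⟨hC, h1, h2⟩
  | succ n ih =>
    simp only [Function.iterate_succ_apply']
    obtain ⟨i1, i2, i3⟩ := ih
    have := hP5 L2N (fun k => alu^[n] (T k)) (alu^[n] T₀) C i1 i2 i3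
    exact ⟨fun k => (hP3 L2N _).trans (i1 k), this.1, this.2⟩

theorem continuous_Phi (hP3 : Stmt_P3) (hP5 : Stmt_P5) (hM1 : Stmt_M1) (hM2 : Stmt_M2) (a : ℝ)
    (ha : 0 < a) (ha1 : a < 1) (n : ℕ) :
    Continuous (fun v : X => ‖alu^[n] (opA a v.1) (e 0)‖) := by
  refine continuous_norm.comp ?_
  rw [continuous_iff_seqContinuous]
  intro v v₀ hv
  have hv' : ∀ i, Tendsto (fun k => (v k).1 i) atTop (𝓝 (v₀.1 i)) := by
    rw [tendsto_subtype_rng, tendsto_pi_nhds] at hv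
    exact hv
  obtain ⟨h1, h2⟩ := hM2 a (fun k => (v k).1) v₀.1 ha ha1 (fun k => (v k).2) v₀.2 hv'
  exact (iterate_tendsto hP3 hP5 (fun k => opA a (v k).1) (opA a v₀.1) 1
    (fun k => (hM1 a _ ha ha1 (v k).2).2) h1 h2 n).2.1 (e 0)

end BB

open BB in
theorem stmt_B (hP3 : Stmt_P3) (hP5 : Stmt_P5) (hM1 : Stmt_M1) (hM2 : Stmt_M2) : Stmt_B := by
  intro a ha ha1 hup hlo
  have hc := continuous_Phi hP3 hP5 hM1 hM2 a ha ha1
  set Φ : ℕ → X → ℝ := fun n v => ‖alu^[n] (opA a v.1) (e 0)‖ with hΦ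
  have hδ : ∀ k : ℕ, (0:ℝ) < 1 / (k + 1) := fun k => by positivity
  have o1 : ∀ p : ℕ × ℕ, IsOpen {v : X | ∃ n, p.1 ≤ n ∧ 1 - 1 / ((p.2 : ℝ) + 1) < Φ n v} := by
    intro p
    have : {v : X | ∃ n, p.1 ≤ n ∧ 1 - 1 / ((p.2 : ℝ) + 1) < Φ n v}
        = ⋃ n : ℕ, ⋃ _ : p.1 ≤ n, {v : X | 1 - 1 / ((p.2 : ℝ) + 1) < Φ n v} := by
      ext v; simp
    rw [this]
    exact isOpen_iUnion (fun n => isOpen_iUnion (fun _ => isOpen_lt continuous_const (hc n)))
  have o2 : ∀ p : ℕ × ℕ, IsOpen {v : X | ∃ n, p.1 ≤ n ∧ Φ n v < Real.sqrt a + 1 / ((p.2 : ℝ) + 1)} := by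
    intro p
    have : {v : X | ∃ n, p.1 ≤ n ∧ Φ n v < Real.sqrt a + 1 / ((p.2 : ℝ) + 1)}
        = ⋃ n : ℕ, ⋃ _ : p.1 ≤ n, {v : X | Φ n v < Real.sqrt a + 1 / ((p.2 : ℝ) + 1)} := by
      ext v; simp
    rw [this]
    exact isOpen_iUnion (fun n => isOpen_iUnion (fun _ => isOpen_lt (hc n) continuous_const))
  have d1 : ∀ p : ℕ × ℕ, Dense {v : X | ∃ n, p.1 ≤ n ∧ 1 - 1 / ((p.2 : ℝ) + 1) < Φ n v} := by
    intro p v
    refine mem_closure_of_tendsto (tendsto_lin v) (Eventually.of_forall (fun J => ?_))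
    have h := hup (lin v.1 J) J (isV_lin v.2 J) (fun i hi => by
      rw [lin_of_ge hi, lin_of_le le_rfl])
    have h2 := h.eventually (lt_mem_nhds (show 1 - 1 / ((p.2 : ℝ) + 1) < 1 by
      linarith [hδ p.2]))
    obtain ⟨n, hn1, hn2⟩ := (h2.and (eventually_ge_atTop p.1)).exists
    exact ⟨n, hn2, hn1⟩
  have d2 : ∀ p : ℕ × ℕ, Dense {v : X | ∃ n, p.1 ≤ n ∧ Φ n v < Real.sqrt a + 1 / ((p.2 : ℝ) + 1)} := by
    intro p v
    refine mem_closure_of_tendsto (tendsto_cst v) (Eventually.of_forall (fun J => ?_))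
    obtain ⟨N, hN⟩ := hlo (cst v.1 J) J (isV_cst v.2 J) (fun i hi => by
      simp [cst, min_eq_right hi]) (1 / ((p.2 : ℝ) + 1) / 2) (half_pos (hδ p.2))
    refine ⟨max N p.1, le_max_right _ _, lt_of_le_of_lt (hN _ (le_max_left _ _)) ?_⟩
    linarith [hδ p.2]
  have D1 := dense_iInter_of_isOpen o1 d1
  have D2 := dense_iInter_of_isOpen o2 d2
  have G1 : IsGδ (⋂ p : ℕ × ℕ, {v : X | ∃ n, p.1 ≤ n ∧ 1 - 1 / ((p.2 : ℝ) + 1) < Φ n v}) :=
    IsGδ.iInter (fun p => (o1 p).isGδ)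
  have G2 : IsGδ (⋂ p : ℕ × ℕ, {v : X | ∃ n, p.1 ≤ n ∧ Φ n v < Real.sqrt a + 1 / ((p.2 : ℝ) + 1)}) :=
    IsGδ.iInter (fun p => (o2 p).isGδ)
  obtain ⟨v, hv1, hv2⟩ := (D1.inter_of_Gδ G1 G2 D2).nonempty
  refine ⟨v.1, v.2, fun N ε hε => ?_⟩
  obtain ⟨k, hk⟩ := exists_nat_one_div_lt hε
  rw [mem_iInter] at hv1 hv2
  obtain ⟨n, hn1, hn2⟩ := hv1 (N, k)
  obtain ⟨m, hm1, hm2⟩ := hv2 (N, k)
  refine ⟨⟨n, hn1, ?_⟩, ⟨m, hm1, ?_⟩⟩
  · change 1 - 1 / ((k : ℝ) + 1) < Φ n v at hn2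
    change 1 - ε < Φ n v
    linarith
  · change Φ m v < Real.sqrt a + 1 / ((k : ℝ) + 1) at hm2
    change Φ m v < Real.sqrt a + ε
    linarith

end Aluthge
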