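import Pool.Agent.Work.MP_943409_an_helper29.HP

/-!
# MP_943409_an, block HS
-/

open Complex Filter Topology MeasureTheory
open scoped ComplexOrder InnerProductSpace
set_option linter.unusedSectionVars false

namespace Aluthge
namespace BS

variable {H : Type} [NormedAddCommGroup H] [InnerProductSpace ℂ H] [CompleteSpace H]

theorem HS_norm {A : H →L[ℂ] H} {c : ℝ} (h : HS A c) : ‖A‖ ≤ c := by
  refine ContinuousLinearMap.opNorm_le_bound _ h.1 (fun x => ?_)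
  by_cases hx : x = 0
  · simp [hx]
  have hx' : ‖x‖ ≠ 0 := norm_ne_zero_iff.mpr hx
  set u : H := ((‖x‖⁻¹ : ℝ) : ℂ) • x with hu
  have hu1 : ‖u‖ = 1 := by
    rw [hu, norm_smul, Complex.norm_real, norm_inv, norm_norm, inv_mul_cancel₀ hx']
  have ho : Orthonormal ℂ (fun _ : Fin 1 => u) := by
    refine ⟨fun _ => hu1, fun i j hij => ?_⟩
    exact absurd (Subsingleton.elim i j) hij
  have := h.2 1 _ ho
  simp only [Finset.univ_unique, Finset.sum_singleton] at this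
  have h1 : ‖A u‖ ≤ c := _root_.le_of_sq_le_sq this h.1
  have h2 : A u = ((‖x‖⁻¹ : ℝ) : ℂ) • A x := by rw [hu, map_smul]
  rw [h2, norm_smul, Complex.norm_real, norm_inv, norm_norm] at h1
  have h3 : 0 < ‖x‖ := norm_pos_iff.mpr hx
  rwa [inv_mul_le_iff₀ h3, mul_comm] at h1

theorem HS_add {A B : H →L[ℂ] H} {c d : ℝ} (hA : HS A c) (hB : HS B d) : HS (A + B) (c + d) := by
  refine ⟨add_nonneg hA.1 hB.1, fun n e he => ?_⟩
  have h1 := hA.2 n e he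
  have h2 := hB.2 n e he
  have h3 : ∑ i, ‖A (e i)‖ * ‖B (e i)‖ ≤ c * d := by
    refine _root_.le_of_sq_le_sq ?_ (mul_nonneg hA.1 hB.1)
    calc (∑ i, ‖A (e i)‖ * ‖B (e i)‖) ^ 2 ≤ (∑ i, ‖A (e i)‖ ^ 2) * (∑ i, ‖B (e i)‖ ^ 2) :=
          Finset.sum_mul_sq_le_sq_mul_sq _ _ _
      _ ≤ c ^ 2 * d ^ 2 := by
          gcongr
      _ = _ := by ring
  calc ∑ i, ‖(A + B) (e i)‖ ^ 2 ≤ ∑ i, (‖A (e i)‖ ^ 2 + 2 * (‖A (e i)‖ * ‖B (e i)‖) + ‖B (e i)‖ ^ 2) := by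
        refine Finset.sum_le_sum (fun i _ => ?_)
        have : ‖(A + B) (e i)‖ ≤ ‖A (e i)‖ + ‖B (e i)‖ := norm_add_le _ _
        nlinarith [norm_nonneg ((A + B) (e i)), norm_nonneg (A (e i)), norm_nonneg (B (e i))]
    _ = ∑ i, ‖A (e i)‖ ^ 2 + 2 * ∑ i, ‖A (e i)‖ * ‖B (e i)‖ + ∑ i, ‖B (e i)‖ ^ 2 := by
        rw [Finset.sum_add_distrib, Finset.sum_add_distrib, Finset.mul_sum]
    _ ≤ _ := by nlinarith

theorem HS_star {A : H →L[ℂ] H} {c : ℝ} (hA : HS A c) : HS (star A) c := by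
  refine ⟨hA.1, fun n e he => ?_⟩
  set S : Submodule ℂ H := Submodule.span ℂ (Set.range (fun i => star A (e i))) with hS
  have : FiniteDimensional ℂ S := FiniteDimensional.span_of_finite ℂ (Set.finite_range _)
  set b := stdOrthonormalBasis ℂ S with hb
  have hf : Orthonormal ℂ (fun j => (b j : H)) := b.orthonormal.comp_linearIsometry S.subtypeₗᵢ
  have h1 : ∀ i, ‖star A (e i)‖ ^ 2 = ∑ j, ‖⟪(b j : H), star A (e i)⟫_ℂ‖ ^ 2 := by
    intro i
    have hm : star A (e i) ∈ S := Submodule.subset_span ⟨i, rfl⟩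
    have := b.sum_sq_norm_inner_right (⟨star A (e i), hm⟩ : S)
    simpa using this.symm
  calc ∑ i, ‖star A (e i)‖ ^ 2 = ∑ i, ∑ j, ‖⟪(b j : H), star A (e i)⟫_ℂ‖ ^ 2 :=
        Finset.sum_congr rfl (fun i _ => h1 i)
    _ = ∑ j, ∑ i, ‖⟪e i, A (b j : H)⟫_ℂ‖ ^ 2 := by
        rw [Finset.sum_comm]
        refine Finset.sum_congr rfl (fun j _ => Finset.sum_congr rfl (fun i _ => ?_))
        rw [inner_star, ← norm_inner_symm]
    _ ≤ ∑ j, ‖A (b j : H)‖ ^ 2 :=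
        Finset.sum_le_sum (fun j _ => he.sum_inner_products_le (A (b j : H)))
    _ ≤ c ^ 2 := hA.2 _ _ hf

theorem HS_left {A : H →L[ℂ] H} {c : ℝ} (B : H →L[ℂ] H) (hA : HS A c) : HS (B * A) (‖B‖ * c) := by
  refine ⟨mul_nonneg (norm_nonneg _) hA.1, fun n e he => ?_⟩
  calc ∑ i, ‖(B * A) (e i)‖ ^ 2 ≤ ∑ i, ‖B‖ ^ 2 * ‖A (e i)‖ ^ 2 := by
        refine Finset.sum_le_sum (fun i _ => ?_)
        rw [← mul_pow]
        exact pow_le_pow_left₀ (norm_nonneg _) (B.le_opNorm _) 2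
    _ = ‖B‖ ^ 2 * ∑ i, ‖A (e i)‖ ^ 2 := by rw [Finset.mul_sum]
    _ ≤ ‖B‖ ^ 2 * c ^ 2 := by gcongr; exact hA.2 n e he
    _ = _ := by ring

theorem HS_right {A : H →L[ℂ] H} {c : ℝ} (B : H →L[ℂ] H) (hA : HS A c) : HS (A * B) (‖B‖ * c) := by
  have := HS_star (HS_left (star B) (HS_star hA))
  rwa [norm_star, star_mul, star_star, star_star] at this

theorem HS_le {X Y : H →L[ℂ] H} {c : ℝ} (hX : 0 ≤ X) (hXY : X ≤ Y) (hY : HS Y c) : HS X c := by
  set A := CFC.sqrt X with hA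
  set B := CFC.sqrt Y with hB
  have hAA : A * A = X := CFC.sqrt_mul_sqrt_self _ hX
  have hBB : B * B = Y := CFC.sqrt_mul_sqrt_self _ (hX.trans hXY)
  have hAs : star A = A := (IsSelfAdjoint.of_nonneg (CFC.sqrt_nonneg X)).star_eq
  have hBs : star B = B := (IsSelfAdjoint.of_nonneg (CFC.sqrt_nonneg Y)).star_eq
  have h1 : ∀ (C : H →L[ℂ] H) (x : H), ‖(A * C) x‖ ≤ ‖(B * C) x‖ := by
    intro C x
    refine norm_le_of_star_mul_le (A := A) (B := B) ?_ (C x)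
    rw [hAs, hBs, hAA, hBB]
    exact hXY
  have h2 : HS (A * B) c := by
    refine ⟨hY.1, fun n e he => ?_⟩
    refine le_trans (Finset.sum_le_sum (fun i _ => pow_le_pow_left₀ (norm_nonneg _) (h1 B (e i)) 2)) ?_
    rw [hBB]
    exact hY.2 n e he
  have h3 : HS (B * A) c := by
    have := HS_star h2
    rwa [star_mul, hAs, hBs] at this
  refine ⟨hY.1, fun n e he => ?_⟩
  refine le_trans (Finset.sum_le_sum (fun i _ => ?_)) (h3.2 n e he)
  rw [← hAA]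
  exact pow_le_pow_left₀ (norm_nonneg _) (h1 A (e i)) 2

theorem HS_neg {A : H →L[ℂ] H} {c : ℝ} (hA : HS A c) : HS (-A) c := by
  refine ⟨hA.1, fun n e he => ?_⟩
  simpa using hA.2 n e he

end BS

theorem stmt_HS : Stmt_HS := by
  intro H _ _ _
  exact ⟨fun A c h => BS.HS_norm h, fun A B c d hA hB => BS.HS_add hA hB,
    fun A c h => ⟨BS.HS_star h, BS.HS_neg h⟩, fun A B c h => ⟨BS.HS_left B h, BS.HS_right B h⟩,
    fun X Y c h1 h2 h3 => BS.HS_le h1 h2 h3⟩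

end Aluthge
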