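import Pool.Agent.Work.MP_943409_an.Interface

/-!
Hilbert-Schmidt norms through a Hilbert basis.
-/

open Complex MeasureTheory Filter Topology
open scoped ComplexOrder InnerProductSpace ComplexConjugate ENNReal

namespace Aluthge

variable {H : Type} [NormedAddCommGroup H] [InnerProductSpace ℂ H] [CompleteSpace H]
variable {ι : Type} (b : HilbertBasis ι ℂ H)

/-- The square of the Hilbert-Schmidt norm. -/
noncomputable def hs2 (A : H →L[ℂ] H) : ℝ≥0∞ := ∑' i, ENNReal.ofReal (‖A (b i)‖ ^ 2)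

theorem parseval (x : H) :
    ∑' i, ENNReal.ofReal (‖⟪b i, x⟫_ℂ‖ ^ 2) = ENNReal.ofReal (‖x‖ ^ 2) := by
  have h := b.hasSum_inner_mul_inner x x
  have h1 : HasSum (fun i => ‖⟪b i, x⟫_ℂ‖ ^ 2) (‖x‖ ^ 2) := by
    have h2 := (Complex.hasSum_re h)
    have h3 : (⟪x, x⟫_ℂ).re = ‖x‖ ^ 2 := by
      rw [inner_self_eq_norm_sq_to_K]
      norm_cast
    rw [h3] at h2
    refine h2.congr_fun ?_
    intro i
    rw [← inner_conj_symm x (b i), ← Complex.normSq_eq_conj_mul_self, Complex.normSq_eq_norm_sq]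
    norm_cast
  rw [← ENNReal.ofReal_tsum_of_nonneg (fun i => by positivity) h1.summable, h1.tsum_eq]

theorem hs2_star (A : H →L[ℂ] H) : hs2 b (star A) = hs2 b A := by
  unfold hs2
  have h1 : ∀ B : H →L[ℂ] H, ∑' i, ENNReal.ofReal (‖B (b i)‖ ^ 2)
      = ∑' i, ∑' j, ENNReal.ofReal (‖⟪b j, B (b i)⟫_ℂ‖ ^ 2) := by
    intro B
    exact tsum_congr fun i => (parseval b _).symm
  rw [h1, h1, ENNReal.tsum_comm]
  refine tsum_congr fun i => tsum_congr fun j => ?_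
  rw [ContinuousLinearMap.star_eq_adjoint, ContinuousLinearMap.adjoint_inner_right,
    norm_inner_symm]

theorem hs2_le_of_HS {A : H →L[ℂ] H} {c : ℝ} (h : HS A c) : hs2 b A ≤ ENNReal.ofReal (c ^ 2) := by
  classical
  unfold hs2
  rw [ENNReal.tsum_eq_iSup_sum]
  refine iSup_le fun s => ?_
  rw [← ENNReal.ofReal_sum_of_nonneg fun i _ => by positivity]
  apply ENNReal.ofReal_le_ofReal
  have h1 := h.2 s.card (fun i => b (s.equivFin.symm i))
    (b.orthonormal.comp (fun i : Fin s.card => (s.equivFin.symm i : ι))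
      (Subtype.val_injective.comp s.equivFin.symm.injective))
  refine le_trans (le_of_eq ?_) h1
  rw [← Finset.sum_coe_sort]
  exact (Equiv.sum_comp s.equivFin.symm (fun i : s => ‖A (b (i : ι))‖ ^ 2)).symm

theorem HS_of_hs2_le {A : H →L[ℂ] H} {c : ℝ} (hc : 0 ≤ c) (h : hs2 b A ≤ ENNReal.ofReal (c ^ 2)) :
    HS A c := by
  refine ⟨hc, fun n e he => ?_⟩
  have h1 : ENNReal.ofReal (∑ i, ‖A (e i)‖ ^ 2) ≤ ENNReal.ofReal (c ^ 2) := by
    refine le_trans ?_ h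
    rw [← hs2_star b A, ENNReal.ofReal_sum_of_nonneg fun i _ => by positivity]
    unfold hs2
    calc ∑ i, ENNReal.ofReal (‖A (e i)‖ ^ 2)
        = ∑ i, ∑' j, ENNReal.ofReal (‖⟪b j, A (e i)⟫_ℂ‖ ^ 2) :=
          Finset.sum_congr rfl fun i _ => (parseval b _).symm
      _ = ∑' j, ∑ i, ENNReal.ofReal (‖⟪b j, A (e i)⟫_ℂ‖ ^ 2) := by
          rw [Summable.tsum_finsetSum fun i _ => ENNReal.summable]
      _ ≤ ∑' j, ENNReal.ofReal (‖star A (b j)‖ ^ 2) := by
          refine ENNReal.tsum_le_tsum fun j => ?_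
          rw [← ENNReal.ofReal_sum_of_nonneg fun i _ => by positivity]
          apply ENNReal.ofReal_le_ofReal
          have h2 := he.sum_inner_products_le (x := star A (b j)) (s := Finset.univ)
          refine le_trans (le_of_eq (Finset.sum_congr rfl fun i _ => ?_)) h2
          rw [ContinuousLinearMap.star_eq_adjoint, ContinuousLinearMap.adjoint_inner_right,
            norm_inner_symm]
  exact (ENNReal.ofReal_le_ofReal_iff (by positivity)).1 h1

theorem HS_add' {A B : H →L[ℂ] H} {α β : ℝ} (hA : HS A α) (hB : HS B β) : HS (A + B) (α + β) := by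
  refine ⟨add_nonneg hA.1 hB.1, fun n e he => ?_⟩
  have h1 := hA.2 n e he
  have h2 := hB.2 n e he
  have h3 : ∑ i, ‖A (e i)‖ * ‖B (e i)‖ ≤ α * β := by
    have h4 := Finset.sum_mul_sq_le_sq_mul_sq Finset.univ (fun i => ‖A (e i)‖) (fun i => ‖B (e i)‖)
    have h5 : (∑ i, ‖A (e i)‖ * ‖B (e i)‖) ^ 2 ≤ (α * β) ^ 2 := by
      refine h4.trans ?_
      rw [mul_pow]
      exact mul_le_mul h1 h2 (Finset.sum_nonneg fun i _ => by positivity) (by positivity)
    exact abs_le_of_sq_le_sq' h5 (mul_nonneg hA.1 hB.1) |>.2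
  calc ∑ i, ‖(A + B) (e i)‖ ^ 2 ≤ ∑ i, (‖A (e i)‖ + ‖B (e i)‖) ^ 2 := by
        refine Finset.sum_le_sum fun i _ => ?_
        exact pow_le_pow_left₀ (norm_nonneg _) (norm_add_le _ _) 2
    _ = ∑ i, ‖A (e i)‖ ^ 2 + 2 * ∑ i, ‖A (e i)‖ * ‖B (e i)‖ + ∑ i, ‖B (e i)‖ ^ 2 := by
        rw [Finset.mul_sum, ← Finset.sum_add_distrib, ← Finset.sum_add_distrib]
        exact Finset.sum_congr rfl fun i _ => by ring
    _ ≤ (α + β) ^ 2 := by nlinarith

theorem HS_mul_left' {A B : H →L[ℂ] H} {α : ℝ} (hA : HS A α) (hB : ∀ x, ‖B x‖ ≤ ‖x‖) :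
    HS (B * A) α :=
  ⟨hA.1, fun n e he => le_trans (Finset.sum_le_sum fun i _ =>
    pow_le_pow_left₀ (norm_nonneg _) (hB _) 2) (hA.2 n e he)⟩

/-- The Hilbert-Schmidt norm is lower semicontinuous for the strong topology. -/
theorem HS_of_tendsto {A : ℕ → H →L[ℂ] H} {A₀ : H →L[ℂ] H} {c : ℝ} (h : ∀ n, HS (A n) c)
    (hlim : ∀ x, Tendsto (fun n => A n x) atTop (𝓝 (A₀ x))) : HS A₀ c := by
  refine ⟨(h 0).1, fun n e he => ?_⟩
  have h1 : Tendsto (fun k => ∑ i, ‖A k (e i)‖ ^ 2) atTop (𝓝 (∑ i, ‖A₀ (e i)‖ ^ 2)) :=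
    tendsto_finset_sum _ fun i _ => ((hlim (e i)).norm).pow 2
  exact le_of_tendsto' h1 fun k => (h k).2 n e he

section Decomposition

variable {κ : Type} (s : Finset κ) (q : κ → H →L[ℂ] H)

theorem norm_sum_sq (hq : ∀ j, star (q j) = q j) (hqq : ∀ j, q j * q j = q j)
    (horth : ∀ j k, j ≠ k → q j * q k = 0) (y : H) :
    ‖(∑ j ∈ s, q j) y‖ ^ 2 = ∑ j ∈ s, ‖q j y‖ ^ 2 := by
  classical
  have h1 : ∀ j k, ⟪q j y, q k y⟫_ℂ = if j = k then ((‖q j y‖ ^ 2 : ℝ) : ℂ) else 0 := by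
    intro j k
    split_ifs with h
    · subst h
      rw [inner_self_eq_norm_sq_to_K]
      norm_cast
    · have h2 : ⟪q j y, q k y⟫_ℂ = ⟪y, (q j * q k) y⟫_ℂ := by
        rw [mul_apply_eq_comp]
        conv_rhs => rw [← hq j, ContinuousLinearMap.star_eq_adjoint,
          ContinuousLinearMap.adjoint_inner_right]
      rw [h2, horth j k h]
      simp
  have h2 : ((‖(∑ j ∈ s, q j) y‖ ^ 2 : ℝ) : ℂ) = ((∑ j ∈ s, ‖q j y‖ ^ 2 : ℝ) : ℂ) := by
    have h3 : ((‖(∑ j ∈ s, q j) y‖ ^ 2 : ℝ) : ℂ)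
        = ⟪(∑ j ∈ s, q j) y, (∑ j ∈ s, q j) y⟫_ℂ := by
      rw [inner_self_eq_norm_sq_to_K]
      norm_cast
    rw [h3, ContinuousLinearMap.sum_apply, sum_inner]
    push_cast
    refine Finset.sum_congr rfl fun j hj => ?_
    rw [inner_sum, Finset.sum_congr rfl fun k _ => h1 j k, Finset.sum_ite_eq]
    simp [hj]
  exact_mod_cast h2

theorem hs2_mul_sum (hq : ∀ j, star (q j) = q j) (hqq : ∀ j, q j * q j = q j)
    (horth : ∀ j k, j ≠ k → q j * q k = 0) (A : H →L[ℂ] H) :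
    hs2 b (A * ∑ j ∈ s, q j) = ∑ j ∈ s, hs2 b (A * q j) := by
  have hstar : star (∑ j ∈ s, q j) = ∑ j ∈ s, q j := by
    rw [star_sum]
    exact Finset.sum_congr rfl fun j _ => hq j
  rw [← hs2_star b (A * _), star_mul, hstar]
  have h1 : ∀ j, hs2 b (A * q j) = hs2 b (q j * star A) := by
    intro j
    rw [← hs2_star b (A * _), star_mul, hq j]
  rw [Finset.sum_congr rfl fun j _ => h1 j]
  unfold hs2
  rw [← Summable.tsum_finsetSum fun i _ => ENNReal.summable]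
  refine tsum_congr fun i => ?_
  rw [mul_apply_eq_comp, norm_sum_sq s q hq hqq horth,
    ENNReal.ofReal_sum_of_nonneg fun i _ => by positivity]
  rfl

end Decomposition

end Aluthge
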