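import Pool.Agent.Work.MP_943409_an_helper29.HP

/-!
# MP_943409_an, final assembly
-/

open Complex Filter Topology MeasureTheory
open scoped ComplexOrder InnerProductSpace
set_option linter.unusedSectionVars false

namespace Aluthge
namespace BS

section
variable {H K : Type} [NormedAddCommGroup H] [InnerProductSpace ℂ H] [CompleteSpace H]
  [NormedAddCommGroup K] [InnerProductSpace ℂ K] [CompleteSpace K]

theorem iterate_intertwine (hP4 : Stmt_P4) (T : H →L[ℂ] H) (T' : K →L[ℂ] K) (J : K →ₗᵢ[ℂ] H)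
    (h1 : ∀ x, T (J x) = J (T' x)) (h2 : ∀ x, star T (J x) = J (star T' x)) (n : ℕ) :
    (∀ x, alu^[n] T (J x) = J (alu^[n] T' x)) ∧
      (∀ x, star (alu^[n] T) (J x) = J (star (alu^[n] T') x)) := by
  induction n with
  | zero => exact ⟨h1, h2⟩
  | succ n ih =>
    rw [Function.iterate_succ_apply', Function.iterate_succ_apply']
    exact hP4 H K _ _ J ih.1 ih.2

/-- Conjugation by a unitary. -/
noncomputable def conjU (U : K ≃ₗᵢ[ℂ] H) (D : K ≃L[ℂ] K) : H ≃L[ℂ] H :=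
  (U.symm.toContinuousLinearEquiv.trans D).trans U.toContinuousLinearEquiv

theorem conjU_apply (U : K ≃ₗᵢ[ℂ] H) (D : K ≃L[ℂ] K) (x : H) :
    (conjU U D : H →L[ℂ] H) x = U ((D : K →L[ℂ] K) (U.symm x)) := rfl

theorem conjU_symm_apply (U : K ≃ₗᵢ[ℂ] H) (D : K ≃L[ℂ] K) (x : H) :
    ((conjU U D).symm : H →L[ℂ] H) x = U ((D.symm : K →L[ℂ] K) (U.symm x)) := rfl

theorem star_conj (U : K ≃ₗᵢ[ℂ] H) (T : H →L[ℂ] H) (T' : K →L[ℂ] K)
    (h : ∀ x, T x = U (T' (U.symm x))) (x : H) : star T x = U (star T' (U.symm x)) := by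
  refine ext_inner_left ℂ (fun y => ?_)
  rw [inner_star, h, ← U.symm.inner_map_map, ← U.symm.inner_map_map y, U.symm_apply_apply,
    U.symm_apply_apply, inner_star]

theorem rk_conj (U : K ≃ₗᵢ[ℂ] H) (v : K) (x : H) : rk (U v) x = U (rk v (U.symm x)) := by
  have h1 : rk (U v) x = ⟪U v, x⟫_ℂ • U v := rfl
  have h2 : rk v (U.symm x) = ⟪v, U.symm x⟫_ℂ • v := rfl
  rw [h1, h2, map_smul, ← U.symm.inner_map_map, U.symm_apply_apply]

end

theorem norm_e (i : ℕ) : ‖e i‖ = 1 := by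
  rw [e, lp.norm_single] <;> simp

/-- The upper phase on `ℓ²`. -/
theorem upper (hP4 : Stmt_P4) (hL : Stmt_L) (hHP : Stmt_HP) (hM4 : Stmt_M4) (hMOD : Stmt_MOD)
    (a : ℝ) (ha : 0 < a) (ha1 : a < 1) (v : ℕ → ℝ) (J : ℕ) (hv : IsV v)
    (hJ : ∀ i, J ≤ i → v i = v J / (J + 1) * (i + 1)) :
    Tendsto (fun n => ‖alu^[n] (opA a v) (e 0)‖) atTop (𝓝 1) := by
  obtain ⟨-, -, -, hL4, -⟩ := hL
  obtain ⟨W, hW⟩ := hL4 a ha ha1
  obtain ⟨𝒰, hdec, hU⟩ := hMOD a W ha ha1 hW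
  obtain ⟨lam, D, hlam, hDD, hA⟩ := hM4 a v J ha ha1 hv hJ
  set Wo : E →L[ℂ] E := (W.toContinuousLinearEquiv : E →L[ℂ] E) with hWo
  set Z : E ≃L[ℂ] E := conjU 𝒰 D with hZ
  set T : E →L[ℂ] E := (Z : E →L[ℂ] E) * Wo * sOp ((1 - a) / 2) * (Z.symm : E →L[ℂ] E) with hT
  have hZZ : star (Z : E →L[ℂ] E) * (Z : E →L[ℂ] E) = 1 + ∑ i : Fin J, (lam i : ℂ) • rk (𝒰 (e i)) := by
    ext1 x
    have h1 : (star (Z : E →L[ℂ] E) * (Z : E →L[ℂ] E)) x
        = 𝒰 ((star (D : L2N →L[ℂ] L2N) * (D : L2N →L[ℂ] L2N)) (𝒰.symm x)) := by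
      rw [mul_apply_eq_comp, mul_apply_eq_comp, star_conj 𝒰 (Z : E →L[ℂ] E) (D : L2N →L[ℂ] L2N)
        (fun y => conjU_apply 𝒰 D y), hZ, conjU_apply, 𝒰.symm_apply_apply]
    rw [h1, hDD]
    simp only [add_apply, one_apply_eq_self, sum_apply, smul_apply, map_add, map_sum, map_smul,
      rk_conj, LinearIsometryEquiv.apply_symm_apply]
  have hTU : ∀ x, T (𝒰 x) = 𝒰 (opA a v x) := by
    intro x
    rw [hA, hT]
    simp only [mul_apply_eq_comp]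
    rw [hZ, conjU_symm_apply, conjU_apply, 𝒰.symm_apply_apply]
    congr 2
    rw [LinearIsometryEquiv.symm_apply_eq]
    exact (hU _).symm
  have hTU' : ∀ x, star T (𝒰 x) = 𝒰 (star (opA a v) x) := by
    intro x
    rw [star_conj 𝒰 T (opA a v) (fun y => ?_) (𝒰 x), 𝒰.symm_apply_apply]
    rw [← hTU, 𝒰.apply_symm_apply]
  have key := hHP a ((1 - a) / 2) W Wo J lam (fun i => 𝒰 (e i)) Z T ha ha1 (by linarith) hW hWo hlam
    (fun i => hdec i) hZZ hT (𝒰 (e 0))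
  have hit := fun n => (iterate_intertwine hP4 T (opA a v) 𝒰.toLinearIsometry hTU hTU' n).1 (e 0)
  have h1 : ∀ n, ‖alu^[n] T (𝒰 (e 0))‖ = ‖alu^[n] (opA a v) (e 0)‖ := by
    intro n
    have h2 : alu^[n] T (𝒰 (e 0)) = 𝒰 (alu^[n] (opA a v) (e 0)) := hit n
    rw [h2, 𝒰.norm_map]
  simp only [h1, 𝒰.norm_map, norm_e] at key
  exact key

/-- The lower phase. -/
theorem lower (hP7 : Stmt_P7) (hM3 : Stmt_M3)
    (a : ℝ) (ha : 0 < a) (ha1 : a < 1) (v : ℕ → ℝ) (J : ℕ) (hv : IsV v)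
    (hJ : ∀ i, J ≤ i → v i = v J) (ε : ℝ) (hε : 0 < ε) :
    ∃ N, ∀ n, N ≤ n → ‖alu^[n] (opA a v) (e 0)‖ ≤ Real.sqrt a + ε := by
  obtain ⟨C, hC⟩ := hM3 a v J ha ha1 hv hJ
  obtain ⟨N, hN⟩ := hP7 L2N (opA a v) C (Real.sqrt a) (Real.sqrt_pos.mpr ha) hC ε hε
  refine ⟨N, fun n hn => ?_⟩
  calc ‖alu^[n] (opA a v) (e 0)‖ ≤ ‖alu^[n] (opA a v)‖ * ‖e 0‖ := ContinuousLinearMap.le_opNorm _ _
    _ = ‖alu^[n] (opA a v)‖ := by rw [norm_e, mul_one]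
    _ ≤ _ := hN n hn

end BS

theorem stmt_Final (hP1 : Stmt_P1) (hP4 : Stmt_P4) (hP7 : Stmt_P7) (hL : Stmt_L) (hHP : Stmt_HP)
    (hM3 : Stmt_M3) (hM4 : Stmt_M4) (hM5 : Stmt_M5) (hMOD : Stmt_MOD) (hB : Stmt_B) : Stmt_Final := by
  intro a ha ha1
  obtain ⟨v, hv, hosc⟩ := hB a ha ha1
    (fun v J hv hJ => BS.upper hP4 hL hHP hM4 hMOD a ha ha1 v J hv hJ)
    (fun v J hv hJ ε hε => BS.lower hP7 hM3 a ha ha1 v J hv hJ ε hε)
  set β : ℕ → ℝ := fun i => Nat.casesOn i 1 (fun j => Real.sqrt (v j)) with hβ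
  obtain ⟨hw, Cphi, Csig, S, hphi, hsig, hS, hS'⟩ := hM5 a v β ha ha1 hv rfl (fun i => rfl)
  have hal : ∀ T : L2N →L[ℂ] L2N, IsAluthge T (alu T) := fun T => (hP1 L2N T).1
  refine ⟨β, hw, Cphi, Csig, hphi, hsig, ⟨fun n => alu^[n] Csig, rfl, fun n => ?_⟩, ?_⟩
  · change IsAluthge (alu^[n] Csig) (alu^[n + 1] Csig)
    rw [Function.iterate_succ_apply']
    exact hal _
  · rintro A hA0 hA ⟨S', hS''⟩
    have hAn : ∀ n, A n = alu^[n] Csig := by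
      intro n
      induction n with
      | zero => exact hA0
      | succ n ih =>
        rw [Function.iterate_succ_apply', ← ih]
        exact (hP1 L2N (A n)).2 _ (hA n)
    have hnorm : ∀ n, ‖A n (S (e 0))‖ = ‖alu^[n] (opA a v) (e 0)‖ := by
      intro n
      rw [hAn, (BS.iterate_intertwine hP4 Csig (opA a v) S hS hS' n).1, S.norm_map]
    have hlim := (hS'' (S (e 0))).norm
    simp only [hnorm] at hlim
    set l := ‖S' (S (e 0))‖ with hl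
    have hsq : Real.sqrt a < 1 := by
      rw [Real.sqrt_lt' one_pos]; simpa using ha1
    set δ : ℝ := (1 - Real.sqrt a) / 4 with hδ
    have hδ0 : 0 < δ := by rw [hδ]; linarith
    obtain ⟨N, hN⟩ := (Metric.tendsto_atTop.mp hlim) δ hδ0
    obtain ⟨⟨n, hn, h1⟩, ⟨m, hm, h2⟩⟩ := hosc N δ hδ0
    have h3 := abs_lt.mp (by simpa [Real.dist_eq] using hN n hn)
    have h4 := abs_lt.mp (by simpa [Real.dist_eq] using hN m hm)
    linarith [h3.1, h3.2, h4.1, h4.2]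

end Aluthge
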