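import Pool.Agent.Work.MP_943409_an_helper29.S

/-!
# MP_943409_an, block HP: the upper phase
-/

open Complex Filter Topology MeasureTheory
open scoped ComplexOrder InnerProductSpace
set_option linter.unusedSectionVars false

namespace Aluthge
namespace BS

variable {H : Type} [NormedAddCommGroup H] [InnerProductSpace ℂ H] [CompleteSpace H]

theorem HS_mono {A : H →L[ℂ] H} {c d : ℝ} (h : HS A c) (hcd : c ≤ d) : HS A d :=
  ⟨h.1.trans hcd, fun n e he => (h.2 n e he).trans (pow_le_pow_left₀ h.1 hcd 2)⟩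

theorem HS_zero : HS (0 : H →L[ℂ] H) 0 := ⟨le_rfl, fun n e _ => by simp⟩

theorem rk_nonneg (v : H) : 0 ≤ rk v := by
  rw [ContinuousLinearMap.nonneg_iff_isPositive, ContinuousLinearMap.isPositive_iff_complex]
  intro x
  have h : ⟪rk v x, x⟫_ℂ = ((‖⟪v, x⟫_ℂ‖ ^ 2 : ℝ) : ℂ) := by
    have h1 : rk v x = ⟪v, x⟫_ℂ • v := rfl
    rw [h1, inner_smul_left, mul_comm, ← Complex.normSq_eq_norm_sq, Complex.mul_conj]
  rw [h]
  refine ⟨rfl, ?_⟩
  · have : (0:ℝ) ≤ ‖⟪v, x⟫_ℂ‖ ^ 2 := by positivity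
    exact this

theorem norm_star_le_one {A : H →L[ℂ] H} (h : ‖A‖ ≤ 1) : ‖star A‖ ≤ 1 := by
  rw [norm_star]; exact h

theorem ab_injective {T : H →L[ℂ] H} (h : Function.Injective T) : Function.Injective (ab T) := by
  rw [injective_iff_map_eq_zero]
  intro x hx
  have := norm_ab T x
  rw [hx, norm_zero] at this
  exact (injective_iff_map_eq_zero T).mp h x (norm_eq_zero.mp this.symm)

theorem rt_injective {T : H →L[ℂ] H} (h : Function.Injective T) : Function.Injective (rt T) := by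
  have := ab_injective h
  rw [← rt_mul_rt] at this
  exact Function.Injective.of_comp (f := rt T) (g := rt T) this

theorem equiv_mul_symm (Z : H ≃L[ℂ] H) : (Z : H →L[ℂ] H) * (Z.symm : H →L[ℂ] H) = 1 := by
  ext x; simp [mul_apply_eq_comp]

theorem symm_mul_equiv (Z : H ≃L[ℂ] H) : (Z.symm : H →L[ℂ] H) * (Z : H →L[ℂ] H) = 1 := by
  ext x; simp [mul_apply_eq_comp]

theorem norm_le_of_one_le {Z : H →L[ℂ] H} (h : 1 ≤ star Z * Z) (x : H) : ‖x‖ ≤ ‖Z x‖ := by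
  have h1 : star (1 : H →L[ℂ] H) * 1 ≤ star Z * Z := by simpa using h
  have := norm_le_of_star_mul_le h1 x
  simpa using this

theorem norm_symm_le {Z : H ≃L[ℂ] H} (h : 1 ≤ star (Z : H →L[ℂ] H) * (Z : H →L[ℂ] H)) :
    ‖(Z.symm : H →L[ℂ] H)‖ ≤ 1 := by
  refine ContinuousLinearMap.opNorm_le_bound _ zero_le_one (fun x => ?_)
  have := norm_le_of_one_le h (Z.symm x)
  simpa using this

theorem norm_isometry (W : H ≃ₗᵢ[ℂ] H) : ‖(W.toContinuousLinearEquiv : H →L[ℂ] H)‖ ≤ 1 := by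
  refine ContinuousLinearMap.opNorm_le_bound _ zero_le_one (fun x => ?_)
  have : (W.toContinuousLinearEquiv : H →L[ℂ] H) x = W x := rfl
  rw [this, W.norm_map, one_mul]

theorem limit_phase (A B s : ℕ → H →L[ℂ] H) (Wo : H →L[ℂ] H) (K θ : ℝ) (hθ : 0 ≤ θ) (hθ1 : θ < 1)
    (hAB : ∀ n, A n * B n = 1) (hBA : ∀ n, B n * A n = 1) (hBn : ∀ n, ‖B n‖ ≤ 1)
    (hdiff : ∀ n, ‖A (n + 1) - A n‖ ≤ 2 * K * θ ^ n)
    (hcomp : ∀ n, ‖star (A n) * A n - 1‖ ≤ K * θ ^ n) (hs : ∀ n, ‖s n‖ ≤ 1)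
    (hs1 : ∀ y, Tendsto (fun n => s n y) atTop (𝓝 y)) (hW : ∀ y, ‖Wo y‖ = ‖y‖) (x : H) :
    Tendsto (fun n => ‖A n (Wo (s n (B n x)))‖) atTop (𝓝 ‖x‖) := by
  have hAc : CauchySeq A := by
    refine cauchySeq_of_le_geometric θ (2 * K) hθ1 (fun n => ?_)
    rw [dist_comm, dist_eq_norm]
    exact hdiff n
  have hBc : CauchySeq B := by
    refine cauchySeq_of_le_geometric θ (2 * K) hθ1 (fun n => ?_)
    rw [dist_eq_norm]
    have e : B n - B (n + 1) = B (n + 1) * (A (n + 1) - A n) * B n := by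
      have e1 : B (n + 1) * (A (n + 1) - A n) * B n
          = (B (n + 1) * A (n + 1)) * B n - B (n + 1) * (A n * B n) := by noncomm_ring
      rw [e1, hBA, hAB, one_mul, mul_one]
    rw [e]
    calc ‖B (n + 1) * (A (n + 1) - A n) * B n‖ ≤ ‖B (n + 1) * (A (n + 1) - A n)‖ * ‖B n‖ :=
          norm_mul_le _ _
      _ ≤ (‖B (n + 1)‖ * ‖A (n + 1) - A n‖) * ‖B n‖ := by gcongr; exact norm_mul_le _ _
      _ ≤ (1 * (2 * K * θ ^ n)) * 1 := by
          have h0 : 0 ≤ 2 * K * θ ^ n := (norm_nonneg _).trans (hdiff n)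
          gcongr
          · exact hBn _
          · exact hdiff n
          · exact hBn _
      _ = _ := by ring
  obtain ⟨A', hA'⟩ := cauchySeq_tendsto_of_complete hAc
  obtain ⟨B', hB'⟩ := cauchySeq_tendsto_of_complete hBc
  have hAB' : A' * B' = 1 := by
    refine tendsto_nhds_unique (hA'.mul hB') ?_
    simp only [hAB]
    exact tendsto_const_nhds
  have hA'A' : star A' * A' = 1 := by
    have h1 : Tendsto (fun n => star (A n) * A n - 1) atTop (𝓝 (star A' * A' - 1)) :=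
      (hA'.star.mul hA').sub_const 1
    have h2 : Tendsto (fun n => star (A n) * A n - 1) atTop (𝓝 0) := by
      refine squeeze_zero_norm hcomp ?_
      have := (tendsto_pow_atTop_nhds_zero_of_lt_one hθ hθ1).const_mul K
      simpa using this
    exact sub_eq_zero.mp (tendsto_nhds_unique h1 h2)
  have nA' : ∀ y, ‖A' y‖ = ‖y‖ := by
    intro y
    have h1 : star A' * A' = star (1 : H →L[ℂ] H) * 1 := by rw [hA'A']; simp
    refine le_antisymm ?_ ?_
    · simpa using norm_le_of_star_mul_le h1.le y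
    · simpa using norm_le_of_star_mul_le h1.ge y
  have nB' : ‖B' x‖ = ‖x‖ := by
    rw [← nA' (B' x)]
    have : A' (B' x) = x := congrArg (fun G : H →L[ℂ] H => G x) hAB'
    rw [this]
  -- strong convergence
  have hBx : Tendsto (fun n => B n x) atTop (𝓝 (B' x)) :=
    ((ContinuousLinearMap.apply ℂ H x).continuous.tendsto B').comp hB'
  have hsB : Tendsto (fun n => s n (B n x)) atTop (𝓝 (B' x)) := by
    have h1 := hs1 (B' x)
    have h2 : Tendsto (fun n => s n (B n x - B' x)) atTop (𝓝 0) := by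
      have h3 : Tendsto (fun n => ‖B n x - B' x‖) atTop (𝓝 0) := by
        have := (hBx.sub_const (B' x)).norm
        simpa using this
      refine squeeze_zero_norm (fun n => ?_) h3
      calc ‖s n (B n x - B' x)‖ ≤ ‖s n‖ * ‖B n x - B' x‖ :=
            ContinuousLinearMap.le_opNorm _ _
        _ ≤ 1 * ‖B n x - B' x‖ := by gcongr; exact hs n
        _ = _ := one_mul _
    have h5 := h2.add h1
    simpa using h5
  have hT' : Tendsto (fun n => A n (Wo (s n (B n x)))) atTop (𝓝 (A' (Wo (B' x)))) :=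
    (isBoundedBilinearMap_apply.continuous.tendsto (A', Wo (B' x))).comp
      (hA'.prodMk_nhds ((Wo.continuous.tendsto _).comp hsB))
  have h6 := hT'.norm
  rwa [nA', hW, nB'] at h6

end BS

/-- State of the recursion: `T_n = Z W s_n Z⁻¹`, `Z* Z ≥ 1`, `Z* Z - 1 ≤ F n`. -/
def GoodZ (T : E →L[ℂ] E) (Wo : E →L[ℂ] E) (ε : ℕ → ℝ) (F : ℕ → E →L[ℂ] E) (n : ℕ) (Z : E ≃L[ℂ] E) :
    Prop :=
  alu^[n] T = (Z : E →L[ℂ] E) * Wo * sOp (ε n) * (Z.symm : E →L[ℂ] E) ∧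
  1 ≤ star (Z : E →L[ℂ] E) * (Z : E →L[ℂ] E) ∧
  star (Z : E →L[ℂ] E) * (Z : E →L[ℂ] E) - 1 ≤ F n

theorem good_step (hS : Stmt_S) (hHS : Stmt_HS) (hL : Stmt_L) (hLYA : Stmt_LYA) (hSYL : Stmt_SYL)
    (a : ℝ) (W : E ≃ₗᵢ[ℂ] E) (Wo T : E →L[ℂ] E) (ε : ℕ → ℝ) (F : ℕ → E →L[ℂ] E) (c : ℕ → ℝ)
    (ha : 0 < a) (ha1 : a < 1) (hW : IsTrans a W)
    (hWo : Wo = (W.toContinuousLinearEquiv : E →L[ℂ] E)) (hε : ∀ n, 0 < ε n)
    (hε1 : ∀ n, ε (n + 1) = a * (ε n / 2) + ε n / 2) (hF : ∀ n, IsSelfAdjoint (F n))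
    (hFeq : ∀ n, sOp (ε n) * F (n + 1) + F (n + 1) * sOp (ε n)
        = sOp (ε n / 2) * (F n + star Wo * F n * Wo) * sOp (ε n / 2))
    (hFHS : ∀ n, HS (F n) (c n)) (n : ℕ) (Z : E ≃L[ℂ] E) (hG : GoodZ T Wo ε F n Z) :
    ∃ Z' : E ≃L[ℂ] E, GoodZ T Wo ε F (n + 1) Z' ∧
      ‖(Z' : E →L[ℂ] E) - (Z : E →L[ℂ] E)‖ ≤ 2 * c n := by
  obtain ⟨hL1, hL2, -, -, hL5⟩ := hL
  obtain ⟨hWW, hWW', hWs⟩ := hL5 a W Wo ha ha1 hW hWo
  obtain ⟨hT, h1, hE⟩ := hG
  have hε2 : 0 ≤ ε n / 2 := by have := hε n; positivity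
  have hε3 : 0 < ε n / 2 := by have := hε n; positivity
  obtain ⟨-, hr0, hr1, hri⟩ := hL1 (ε n / 2) hε2
  set r := sOp (ε n / 2) with hr
  have hrr : r * r = sOp (ε n) := by rw [hr, hL2 _ _ hε2 hε2]; ring_nf
  have hrs : star r = r := (IsSelfAdjoint.of_nonneg hr0).star_eq
  obtain ⟨hTi, Z', Zo', Zi', hZo', hZi', -, halu, h1', hlyap, N, U, hU, hs1, hs2⟩ :=
    hS E Z W r (alu^[n] T) (Z : E →L[ℂ] E) (Z.symm : E →L[ℂ] E) Wo rfl rfl hWo hr0 hr1 hri h1
      (by rw [hrr]; exact hT)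
  subst hZo' hZi'
  rw [hrr] at hlyap hs1
  -- the Hilbert-Schmidt bounds
  obtain ⟨hH1, -, hH3, hH4, hH5⟩ := hHS E
  have hcn : 0 ≤ c n := (hFHS n).1
  have hE0 : 0 ≤ star (Z : E →L[ℂ] E) * (Z : E →L[ℂ] E) - 1 := sub_nonneg.mpr h1
  have hEHS : HS (star (Z : E →L[ℂ] E) * (Z : E →L[ℂ] E) - 1) (c n) := hH5 _ _ _ hE0 hE (hFHS n)
  have hZin : ‖star (Z.symm : E →L[ℂ] E)‖ ≤ 1 := BS.norm_star_le_one (BS.norm_symm_le h1)
  have hWn : ‖Wo‖ ≤ 1 := by rw [hWo]; exact BS.norm_isometry W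
  have g1 : HS (star (Z.symm : E →L[ℂ] E) * (star (Z : E →L[ℂ] E) * (Z : E →L[ℂ] E) - 1)) (c n) :=
    BS.HS_mono (hH4 _ _ _ hEHS).1 (by nlinarith)
  have hUn : ‖star U‖ ≤ 1 := BS.norm_star_le_one hU
  have g2 : HS (star U * star (Z.symm : E →L[ℂ] E)
      * (star (Z : E →L[ℂ] E) * (Z : E →L[ℂ] E) - 1) * Wo) (c n) := by
    have g3 := (hH4 _ (star U) _ g1).1
    have g4 := (hH4 _ Wo _ g3).2
    have e : star U * (star (Z.symm : E →L[ℂ] E)
      * (star (Z : E →L[ℂ] E) * (Z : E →L[ℂ] E) - 1)) * Wo = star U * star (Z.symm : E →L[ℂ] E)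
      * (star (Z : E →L[ℂ] E) * (Z : E →L[ℂ] E) - 1) * Wo := by simp only [mul_assoc]
    rw [e] at g4
    refine BS.HS_mono g4 ?_
    have : ‖star U‖ * c n ≤ 1 * c n := by gcongr
    calc ‖Wo‖ * (‖star U‖ * c n) ≤ 1 * (1 * c n) := by gcongr
      _ = c n := by ring
  have gN : HS N (c n + c n) :=
    hSYL (ε n) (ab (alu^[n] T)) N _ _ (c n) (c n) (hε n) (BS.ab_nonneg _) (BS.ab_injective hTi)
      ((hH3 _ _ g1).2) g2 hs1
  have gZ : HS ((Z' : E →L[ℂ] E) - (Z : E →L[ℂ] E)) (c n + c n + 0) :=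
    hSYL (ε n / 2) (rt (alu^[n] T)) _ N 0 (c n + c n) 0 hε3 (BS.rt_nonneg _) (BS.rt_injective hTi)
      gN BS.HS_zero hs2
  refine ⟨Z', ⟨?_, h1', ?_⟩, ?_⟩
  · rw [Function.iterate_succ_apply', halu]
    have e1 : r * Wo * r = Wo * sOp (ε (n + 1)) := by
      calc r * Wo * r = (Wo * star Wo) * r * Wo * r := by rw [hWW', one_mul]
        _ = Wo * (star Wo * r * Wo) * r := by simp only [mul_assoc]
        _ = Wo * (sOp (a * (ε n / 2)) * sOp (ε n / 2)) := by rw [hr, hWs _ hε2]; simp only [mul_assoc]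
        _ = _ := by rw [hL2 _ _ (by positivity) hε2, hε1 n]
    rw [e1]; simp only [mul_assoc]
  · -- Lyapunov comparison
    have hs0 := (hL1 (ε n) (hε n).le).2.1
    refine hLYA (ε n) _ _ (hε n) ?_ (hF (n + 1)) ?_
    · exact (IsSelfAdjoint.star_mul_self _).sub (.one _)
    · rw [hFeq n]
      have e2 : sOp (ε n) * (star (Z' : E →L[ℂ] E) * (Z' : E →L[ℂ] E) - 1)
          + (star (Z' : E →L[ℂ] E) * (Z' : E →L[ℂ] E) - 1) * sOp (ε n)
          = (sOp (ε n) * (star (Z' : E →L[ℂ] E) * (Z' : E →L[ℂ] E))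
            + star (Z' : E →L[ℂ] E) * (Z' : E →L[ℂ] E) * sOp (ε n)) - (r * r + r * r) := by
        rw [hrr]; noncomm_ring
      have e3 : r * (star (Z : E →L[ℂ] E) * (Z : E →L[ℂ] E)
            + star Wo * (star (Z : E →L[ℂ] E) * (Z : E →L[ℂ] E)) * Wo) * r - (r * r + r * r)
          = r * ((star (Z : E →L[ℂ] E) * (Z : E →L[ℂ] E) - 1)
            + star Wo * (star (Z : E →L[ℂ] E) * (Z : E →L[ℂ] E) - 1) * Wo) * r := by
        have : r * r = r * (star Wo * Wo) * r := by rw [hWW, mul_one]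
        calc _ = r * (star (Z : E →L[ℂ] E) * (Z : E →L[ℂ] E)
            + star Wo * (star (Z : E →L[ℂ] E) * (Z : E →L[ℂ] E)) * Wo) * r
              - (r * r + r * (star Wo * Wo) * r) := by rw [← this]
          _ = _ := by noncomm_ring
      rw [e2]
      calc _ ≤ r * (star (Z : E →L[ℂ] E) * (Z : E →L[ℂ] E)
            + star Wo * (star (Z : E →L[ℂ] E) * (Z : E →L[ℂ] E)) * Wo) * r - (r * r + r * r) :=
            sub_le_sub_right hlyap _
        _ = _ := e3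
        _ ≤ r * (F n + star Wo * F n * Wo) * r := by
            have := star_left_conjugate_le_conjugate
              (add_le_add hE (star_left_conjugate_le_conjugate hE Wo)) r
            rwa [hrs] at this
  · have := hH1 _ _ gZ
    linarith

theorem stmt_HP (hS : Stmt_S) (hHS : Stmt_HS) (hL : Stmt_L) (hLYA : Stmt_LYA) (hSYL : Stmt_SYL)
    (hKER : Stmt_KER) : Stmt_HP := by
  intro a ε₀ W Wo J lam ψ Z T ha ha1 hε₀ hW hWo hlam hψ hZZ hT x
  obtain ⟨F, K, θ, hK, hθ, hθ1, hF0, hFs, hFeq, hFHS⟩ :=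
    hKER a ε₀ W Wo J lam ψ ha ha1 hε₀ hW hWo hlam hψ
  set ε : ℕ → ℝ := fun n => ε₀ * ((1 + a) / 2) ^ n with hεdef
  have hε : ∀ n, 0 < ε n := fun n => by simp only [hεdef]; positivity
  have hε1 : ∀ n, ε (n + 1) = a * (ε n / 2) + ε n / 2 := fun n => by
    simp only [hεdef, pow_succ]; ring
  have step := good_step hS hHS hL hLYA hSYL a W Wo T ε F (fun n => K * θ ^ n) ha ha1 hW hWo hε hε1
    hFs hFeq hFHS
  choose! f hf using step
  set ZZ : ℕ → (E ≃L[ℂ] E) := fun n => Nat.rec Z (fun n z => f n z) n with hZZdef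
  have hZ0 : ZZ 0 = Z := rfl
  have hZs : ∀ n, ZZ (n + 1) = f n (ZZ n) := fun n => rfl
  have good : ∀ n, GoodZ T Wo ε F n (ZZ n) := by
    intro n
    induction n with
    | zero =>
      have hF0' : 0 ≤ F 0 := by
        rw [hF0]
        refine Finset.sum_nonneg (fun i _ => ?_)
        refine smul_nonneg ?_ (BS.rk_nonneg _)
        exact_mod_cast hlam i
      rw [hZ0]
      refine ⟨?_, ?_, ?_⟩
      · simp only [Function.iterate_zero, id_eq, hεdef, pow_zero, mul_one]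
        exact hT
      · rw [hZZ, ← hF0]; exact le_add_of_nonneg_right hF0'
      · rw [hZZ, ← hF0, add_sub_cancel_left]
    | succ n ih => exact (hf n (ZZ n) ih).1
  have hdiff : ∀ n, ‖(ZZ (n + 1) : E →L[ℂ] E) - (ZZ n : E →L[ℂ] E)‖ ≤ 2 * K * θ ^ n := by
    intro n
    have := (hf n (ZZ n) (good n)).2
    rw [hZs]
    linarith
  have key := BS.limit_phase (fun n => (ZZ n : E →L[ℂ] E)) (fun n => ((ZZ n).symm : E →L[ℂ] E))
    (fun n => sOp (ε n)) Wo K θ hθ hθ1 (fun n => BS.equiv_mul_symm _) (fun n => BS.symm_mul_equiv _)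
    (fun n => BS.norm_symm_le (good n).2.1) hdiff ?_ ?_ ?_ (fun y => ?_) x
  · have e : ∀ n, alu^[n] T x = (ZZ n : E →L[ℂ] E) (Wo (sOp (ε n) (((ZZ n).symm : E →L[ℂ] E) x))) := by
      intro n
      rw [(good n).1]
      rfl
    simpa only [e] using key
  · intro n
    obtain ⟨hH1, -, -, -, hH5⟩ := hHS E
    exact hH1 _ _ (hH5 _ _ _ (sub_nonneg.mpr (good n).2.1) (good n).2.2 (hFHS n))
  · intro n
    obtain ⟨hL1, -⟩ := hL
    obtain ⟨-, h0, h1, -⟩ := hL1 (ε n) (hε n).le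
    exact CStarAlgebra.norm_le_one_iff_of_nonneg _ h0 |>.mpr h1
  · intro y
    obtain ⟨-, -, hL3, -, -⟩ := hL
    have hε0 : Tendsto ε atTop (𝓝 0) := by
      have := (tendsto_pow_atTop_nhds_zero_of_lt_one (r := (1 + a) / 2) (by positivity)
        (by linarith)).const_mul ε₀
      simpa [hεdef] using this
    exact hL3 ε (fun n => (hε n).le) hε0 y
  · rw [hWo]; exact W.norm_map y

end Aluthge
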