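import Pool.Agent.Work.MP_943409_an_helper29.Tools

/-!
# MP_943409_an, block S
-/

open Complex Filter Topology
open scoped ComplexOrder InnerProductSpace
set_option linter.unusedSectionVars false

namespace Aluthge
namespace BS

variable {H : Type} [NormedAddCommGroup H] [InnerProductSpace ℂ H] [CompleteSpace H]

theorem le_of_sq_le_sq {A B : H →L[ℂ] H} (hA : 0 ≤ A) (hB : 0 ≤ B) (h : A * A ≤ B * B) : A ≤ B := by
  have := CFC.sqrt_le_sqrt _ _ h
  rwa [CFC.sqrt_mul_self A hA, CFC.sqrt_mul_self B hB] at this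

theorem le_of_norm_le {A B : H →L[ℂ] H} (hA : 0 ≤ A) (hB : 0 ≤ B) (h : ∀ x, ‖A x‖ ≤ ‖B x‖) :
    A ≤ B := by
  apply le_of_sq_le_sq hA hB
  have := star_mul_le_of_norm_le h
  rwa [(IsSelfAdjoint.of_nonneg hA).star_eq, (IsSelfAdjoint.of_nonneg hB).star_eq] at this

theorem norm_ab (T : H →L[ℂ] H) (x : H) : ‖ab T x‖ = ‖T x‖ := by
  have h : star (ab T) * ab T = star T * T := by rw [star_ab, ab_mul_ab]
  exact le_antisymm (norm_le_of_star_mul_le h.le x) (norm_le_of_star_mul_le h.ge x)

theorem norm_le_one_of_partial {U : H →L[ℂ] H} (h : U * star U * U = U) : ‖U‖ ≤ 1 := by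
  have h1 : ‖star U * U‖ = ‖U‖ * ‖U‖ := CStarRing.norm_star_mul_self
  have h2 : ‖star (star U * U) * (star U * U)‖ = ‖star U * U‖ * ‖star U * U‖ :=
    CStarRing.norm_star_mul_self
  have h3 : star (star U * U) * (star U * U) = star U * U := by
    rw [star_mul, star_star]
    calc star U * U * (star U * U) = star U * (U * star U * U) := by noncomm_ring
      _ = _ := by rw [h]
  rw [h3, h1] at h2
  by_contra h4
  push Not at h4
  nlinarith [mul_pos (lt_trans zero_lt_one h4) (lt_trans zero_lt_one h4), mul_lt_mul'' h4 h4 zero_le_one zero_le_one]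

theorem exists_polar (h1 : Stmt_P1) (T : H →L[ℂ] H) :
    ∃ U : H →L[ℂ] H, T = U * ab T ∧ ‖U‖ ≤ 1 ∧ alu T = rt T * U * rt T := by
  obtain ⟨⟨U, P, R, ⟨hP, hPP, hT, hU, -⟩, hR, hRR, hS⟩, -⟩ := h1 H T
  have hP' : 0 ≤ P := (ContinuousLinearMap.nonneg_iff_isPositive P).mpr hP
  have hR' : 0 ≤ R := (ContinuousLinearMap.nonneg_iff_isPositive R).mpr hR
  have e1 : ab T = P := CFC.sqrt_unique hPP hP'
  have e2 : rt T = R := by
    rw [rt, e1]; exact CFC.sqrt_unique hRR hR'
  exact ⟨U, by rw [e1]; exact hT, norm_le_one_of_partial hU, by rw [e2]; exact hS⟩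

end BS

theorem stmt_S (hP1 : Stmt_P1) (hP2 : Stmt_P2) : Stmt_S := by
  intro H _ _ _ Z V r T Zo Zi Vo hZo hZi hVo hr0 hr1 hri hQ hT
  have hrs : IsSelfAdjoint r := .of_nonneg hr0
  have hrd : DenseRange r := BS.dense_of_injective hrs hri
  -- basic relations
  have oi : Zo * Zi = 1 := by
    ext x; simp [hZo, hZi, mul_apply_eq_comp]
  have io : Zi * Zo = 1 := by
    ext x; simp [hZo, hZi, mul_apply_eq_comp]
  have oi' : star Zi * star Zo = 1 := by rw [← star_mul, oi, star_one]
  have io' : star Zo * star Zi = 1 := by rw [← star_mul, io, star_one]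
  have nV : ∀ x, ‖Vo x‖ = ‖x‖ := by intro x; rw [hVo]; exact V.norm_map x
  have VV : star Vo * Vo = 1 := by
    have h1 : star Vo * Vo ≤ star (1 : H →L[ℂ] H) * 1 :=
      BS.star_mul_le_of_norm_le (fun x => by rw [nV]; simp)
    have h2 : star (1 : H →L[ℂ] H) * 1 ≤ star Vo * Vo :=
      BS.star_mul_le_of_norm_le (fun x => by rw [nV]; simp)
    have := le_antisymm h1 h2
    rw [this]; simp
  have nZ : ∀ x, ‖x‖ ≤ ‖Zo x‖ := by
    intro x
    have h1 : star (1 : H →L[ℂ] H) * 1 ≤ star Zo * Zo := by simpa using hQ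
    have := BS.norm_le_of_star_mul_le h1 x
    simpa using this
  have nZi : ‖Zi‖ ≤ 1 := by
    refine ContinuousLinearMap.opNorm_le_bound _ zero_le_one (fun x => ?_)
    have := nZ (Zi x)
    have h2 : Zo (Zi x) = x := congrArg (fun F : H →L[ℂ] H => F x) oi
    rw [h2] at this
    simpa using this
  have nZi' : ‖star Zi‖ ≤ 1 := by rw [norm_star]; exact nZi
  -- T injective
  have sinj : Function.Injective (r * r) := hri.comp hri
  have Tinj : Function.Injective T := by
    rw [hT]
    have h1 : Function.Injective Zo := by rw [hZo]; exact Z.injective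
    have h2 : Function.Injective Zi := by rw [hZi]; exact Z.symm.injective
    have h3 : Function.Injective Vo := by rw [hVo]; exact V.injective
    exact ((h1.comp h3).comp sinj).comp h2
  refine ⟨Tinj, ?_⟩
  set s : H →L[ℂ] H := r * r with hs
  have hss : IsSelfAdjoint s := by
    rw [hs, isSelfAdjoint_iff, star_mul, hrs.star_eq]
  have hs0 : 0 ≤ s := by
    have := star_mul_self_nonneg r
    rwa [hrs.star_eq] at this
  have hsd : DenseRange s := BS.dense_of_injective hss sinj
  set P := ab T with hPdef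
  set R := rt T with hRdef
  have hPs : star P = P := BS.star_ab T
  have hRs : star R = R := BS.star_rt T
  have hPP : P * P = star T * T := BS.ab_mul_ab T
  have hRR : R * R = P := BS.rt_mul_rt T
  have hP0 : 0 ≤ P := BS.ab_nonneg T
  have hR0 : 0 ≤ R := BS.rt_nonneg T
  have Pinj : Function.Injective P := by
    rw [injective_iff_map_eq_zero]
    intro x hx
    have := BS.norm_ab T x
    rw [← hPdef, hx, norm_zero] at this
    exact (injective_iff_map_eq_zero T).mp Tinj x (norm_eq_zero.mp this.symm)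
  have Rinj : Function.Injective R := by
    rw [← hRR] at Pinj
    exact Function.Injective.of_comp (f := R) (g := R) Pinj
  have Rd : DenseRange R := BS.dense_of_injective (isSelfAdjoint_iff.mpr hRs) Rinj
  have TZ : T * Zo = Zo * Vo * s := by
    rw [hT]
    calc Zo * Vo * s * Zi * Zo = Zo * Vo * s * (Zi * Zo) := by noncomm_ring
      _ = _ := by rw [io, mul_one]
  have TZx : ∀ x, T (Zo x) = Zo (Vo (s x)) := fun x => congrArg (fun F : H →L[ℂ] H => F x) TZ
  have sT : star T = star Zi * s * star Vo * star Zo := by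
    rw [hT]; simp only [star_mul, hss.star_eq]; noncomm_ring
  -- K
  set K : H →L[ℂ] H := star Zo * P * Zo with hK
  have hK0 : 0 ≤ K := by
    have : K = star (R * Zo) * (R * Zo) := by
      rw [hK, star_mul, hRs, ← hRR]; noncomm_ring
    rw [this]; exact star_mul_self_nonneg _
  have hKs : star K = K := (IsSelfAdjoint.of_nonneg hK0).star_eq
  have ZiK : star Zi * K = P * Zo := by
    calc star Zi * K = (star Zi * star Zo) * P * Zo := by rw [hK]; noncomm_ring
      _ = _ := by rw [oi', one_mul]
  have KZi : K * Zi = star Zo * P := by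
    calc K * Zi = star Zo * P * (Zo * Zi) := by rw [hK]; noncomm_ring
      _ = _ := by rw [oi, mul_one]
  have sK : s ≤ K := by
    refine BS.le_of_norm_le hs0 hK0 (fun x => ?_)
    have h1 : star Zi (K x) = P (Zo x) := congrArg (fun F : H →L[ℂ] H => F x) ZiK
    calc ‖s x‖ = ‖Vo (s x)‖ := (nV _).symm
      _ ≤ ‖Zo (Vo (s x))‖ := nZ _
      _ = ‖T (Zo x)‖ := by rw [TZx]
      _ = ‖P (Zo x)‖ := (BS.norm_ab T _).symm
      _ = ‖star Zi (K x)‖ := by rw [h1]
      _ ≤ ‖star Zi‖ * ‖K x‖ := ContinuousLinearMap.le_opNorm _ _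
      _ ≤ 1 * ‖K x‖ := by gcongr
      _ = ‖K x‖ := one_mul _
  have KQK : K * (Zi * star Zi) * K = s * (star Vo * (star Zo * Zo) * Vo) * s := by
    calc K * (Zi * star Zi) * K = (K * Zi) * (star Zi * K) := by noncomm_ring
      _ = star Zo * (P * P) * Zo := by rw [KZi, ZiK]; noncomm_ring
      _ = (star Zo * star T) * (T * Zo) := by rw [hPP]; noncomm_ring
      _ = star (T * Zo) * (T * Zo) := by rw [star_mul]
      _ = _ := by rw [TZ]; simp only [star_mul, hss.star_eq]; noncomm_ring
  -- upper bound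
  have hub : ∀ x, ‖(R * Zo) x‖ ≤ ‖Zo‖ * ‖r x‖ := by
    set c : ℝ := ‖Zo‖ with hc
    have hc0 : 0 ≤ c := norm_nonneg _
    set B : H →L[ℂ] H := star Zi * s * Zi with hB
    have hB0 : 0 ≤ B := by
      have : B = star (r * Zi) * (r * Zi) := by
        rw [hB, star_mul, hrs.star_eq, hs]; noncomm_ring
      rw [this]; exact star_mul_self_nonneg _
    have ZoB : star Zo * B = s * Zi := by
      calc star Zo * B = (star Zo * star Zi) * s * Zi := by rw [hB]; noncomm_ring
        _ = _ := by rw [io', one_mul]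
    have hcB : 0 ≤ ((c ^ 2 : ℝ) : ℂ) • B := by
      refine smul_nonneg ?_ hB0
      exact_mod_cast sq_nonneg c
    have hPB : P ≤ ((c ^ 2 : ℝ) : ℂ) • B := by
      refine BS.le_of_norm_le hP0 hcB (fun y => ?_)
      have h1 : T y = Zo (Vo (s (Zi y))) := by rw [hT]; rfl
      have h2 : star Zo (B y) = s (Zi y) := congrArg (fun F : H →L[ℂ] H => F y) ZoB
      have h3 : ‖(((c ^ 2 : ℝ) : ℂ) • B) y‖ = c ^ 2 * ‖B y‖ := by
        rw [smul_apply, norm_smul, Complex.norm_real, Real.norm_of_nonneg (sq_nonneg c)]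
      calc ‖P y‖ = ‖T y‖ := BS.norm_ab T y
        _ = ‖Zo (Vo (s (Zi y)))‖ := by rw [h1]
        _ ≤ c * ‖Vo (s (Zi y))‖ := ContinuousLinearMap.le_opNorm _ _
        _ = c * ‖star Zo (B y)‖ := by rw [nV, h2]
        _ ≤ c * (‖star Zo‖ * ‖B y‖) := by gcongr; exact ContinuousLinearMap.le_opNorm _ _
        _ = c ^ 2 * ‖B y‖ := by rw [norm_star]; ring
        _ = _ := h3.symm
    intro x
    have h4 := BS.re_inner_le_of_le hPB (Zo x)
    have h5 : (⟪Zo x, P (Zo x)⟫_ℂ).re = ‖(R * Zo) x‖ ^ 2 := by
      have := BS.re_inner_star_mul R (Zo x)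
      rw [hRs, hRR] at this
      exact this
    have h6 : (⟪Zo x, (((c ^ 2 : ℝ) : ℂ) • B) (Zo x)⟫_ℂ).re = c ^ 2 * ‖r x‖ ^ 2 := by
      have e1 : B (Zo x) = star (r * Zi) (r x) := by
        have : B * Zo = star (r * Zi) * r := by
          calc B * Zo = star Zi * s * (Zi * Zo) := by rw [hB]; noncomm_ring
            _ = star (r * Zi) * r := by rw [io, mul_one, star_mul, hrs.star_eq, hs]; noncomm_ring
        exact congrArg (fun F : H →L[ℂ] H => F x) this
      have e2 : (r * Zi) (Zo x) = r x := by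
        have : (r * Zi) * Zo = r := by
          calc (r * Zi) * Zo = r * (Zi * Zo) := by noncomm_ring
            _ = _ := by rw [io, mul_one]
        exact congrArg (fun F : H →L[ℂ] H => F x) this
      rw [smul_apply, inner_smul_right, e1, BS.inner_star, e2, Complex.re_ofReal_mul]
      congr 1
      rw [inner_self_eq_norm_sq_to_K]
      norm_cast
    rw [h5, h6, ← mul_pow] at h4
    exact _root_.le_of_sq_le_sq h4 (by positivity)
  obtain ⟨Zo', hZr, -⟩ := BS.douglas hrd ‖Zo‖ (norm_nonneg _) hub
  have hrQr : r * (star Zo' * Zo') * r = K := by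
    calc r * (star Zo' * Zo') * r = star (Zo' * r) * (Zo' * r) := by
          rw [star_mul, hrs.star_eq]; noncomm_ring
      _ = star Zo * (R * R) * Zo := by rw [hZr, star_mul, hRs]; noncomm_ring
      _ = K := by rw [hRR]
  have hQ' : 1 ≤ star Zo' * Zo' := by
    refine BS.le_cancel hrs hrd (.one _) (.star_mul_self _) ?_
    rw [hrQr, mul_one]
    exact sK
  have nZ' : ∀ x, ‖x‖ ≤ ‖Zo' x‖ := by
    intro x
    have h1 : star (1 : H →L[ℂ] H) * 1 ≤ star Zo' * Zo' := by simpa using hQ'
    have := BS.norm_le_of_star_mul_le h1 x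
    simpa using this
  -- invertibility
  have hanti : AntilipschitzWith 1 Zo' := by
    refine AddMonoidHomClass.antilipschitz_of_bound _ (fun x => ?_)
    simpa using nZ' x
  have hclosed : IsClosed (Set.range Zo') := hanti.isClosed_range Zo'.uniformContinuous
  have hdense : DenseRange Zo' := by
    have h1 : DenseRange (R * Zo) := by
      have h2 : Function.Surjective Zo := by rw [hZo]; exact Z.surjective
      exact Rd.comp h2.denseRange R.continuous
    rw [← hZr] at h1
    exact h1.mono (by rintro _ ⟨x, rfl⟩; exact ⟨r x, rfl⟩)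
  have hsurj : Function.Surjective Zo' := by
    rw [← Set.range_eq_univ, ← hclosed.closure_eq]
    exact hdense.closure_range
  have hker : LinearMap.ker (Zo' : H →ₗ[ℂ] H) = ⊥ := LinearMap.ker_eq_bot.mpr hanti.injective
  have hran : LinearMap.range (Zo' : H →ₗ[ℂ] H) = ⊤ := LinearMap.range_eq_top.mpr hsurj
  set Z' : H ≃L[ℂ] H := ContinuousLinearEquiv.ofBijective Zo' hker hran with hZ'
  have hZ'o : Zo' = (Z' : H →L[ℂ] H) := by
    rw [hZ']; exact (ContinuousLinearEquiv.coe_ofBijective Zo' hker hran).symm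
  set Zi' : H →L[ℂ] H := (Z'.symm : H →L[ℂ] H) with hZi'
  have oi2 : Zo' * Zi' = 1 := by
    ext x; rw [hZ'o, hZi']; simp [mul_apply_eq_comp]
  have io2 : Zi' * Zo' = 1 := by
    ext x; rw [hZ'o, hZi']; simp [mul_apply_eq_comp]
  refine ⟨Z', Zo', Zi', hZ'o, rfl, hZr.symm, ?_, hQ', ?_, ?_⟩
  · -- the Aluthge transform
    refine ((hP2 H T).2 _ Tinj ?_).symm
    have h1 : Zo' * (r * Vo * r) * Zi' * R * Zo = R * T * Zo := by
      calc Zo' * (r * Vo * r) * Zi' * R * Zo = Zo' * (r * Vo * r) * Zi' * (R * Zo) := by noncomm_ring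
        _ = Zo' * (r * Vo * r) * (Zi' * Zo') * r := by rw [← hZr]; noncomm_ring
        _ = (Zo' * r) * Vo * s := by rw [io2, hs]; noncomm_ring
        _ = R * (Zo * Vo * s) := by rw [hZr]; noncomm_ring
        _ = R * T * Zo := by rw [← TZ]; noncomm_ring
    calc Zo' * (r * Vo * r) * Zi' * rt T = (Zo' * (r * Vo * r) * Zi' * R * Zo) * Zi := by
          rw [mul_assoc _ Zo Zi, oi, mul_one]
      _ = R * T * (Zo * Zi) := by rw [h1]; noncomm_ring
      _ = _ := by rw [oi, mul_one]
  · -- the Lyapunov inequality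
    have e : s * K + K * s = s * (star Zo * Zo + star Vo * (star Zo * Zo) * Vo) * s
        - (K - s * (star Zo * Zo)) * (Zi * star Zi) * (K - (star Zo * Zo) * s) := by
      have q1 : (Zi * star Zi) * (star Zo * Zo) = 1 := by
        calc (Zi * star Zi) * (star Zo * Zo) = Zi * (star Zi * star Zo) * Zo := by noncomm_ring
          _ = 1 := by rw [oi', mul_one, io]
      have q2 : (star Zo * Zo) * (Zi * star Zi) = 1 := by
        calc (star Zo * Zo) * (Zi * star Zi) = star Zo * (Zo * Zi) * star Zi := by noncomm_ring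
          _ = 1 := by rw [oi, mul_one, io']
      calc s * K + K * s
          = s * (star Zo * Zo) * 1 * s + K * (Zi * star Zi) * K
            - (K * (Zi * star Zi) * K - K * 1 * s - s * 1 * K + s * (star Zo * Zo) * 1 * s) := by
              noncomm_ring
        _ = s * (star Zo * Zo) * 1 * s + K * (Zi * star Zi) * K
            - (K * (Zi * star Zi) * K - K * ((Zi * star Zi) * (star Zo * Zo)) * s
              - s * ((star Zo * Zo) * (Zi * star Zi)) * K
              + s * (star Zo * Zo) * ((Zi * star Zi) * (star Zo * Zo)) * s) := by rw [q1, q2]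
        _ = s * (star Zo * Zo) * 1 * s + s * (star Vo * (star Zo * Zo) * Vo) * s
            - (K * (Zi * star Zi) * K - K * ((Zi * star Zi) * (star Zo * Zo)) * s
              - s * ((star Zo * Zo) * (Zi * star Zi)) * K
              + s * (star Zo * Zo) * ((Zi * star Zi) * (star Zo * Zo)) * s) := by
              congr 2
        _ = _ := by noncomm_ring
    have hpos : 0 ≤ (K - s * (star Zo * Zo)) * (Zi * star Zi) * (K - (star Zo * Zo) * s) := by
      have : (K - s * (star Zo * Zo)) * (Zi * star Zi) * (K - (star Zo * Zo) * s)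
          = star (star Zi * (K - (star Zo * Zo) * s)) * (star Zi * (K - (star Zo * Zo) * s)) := by
        simp only [star_mul, star_sub, star_star, hKs, hss.star_eq]
        noncomm_ring
      rw [this]; exact star_mul_self_nonneg _
    refine BS.le_cancel hrs hrd ?_ ?_ ?_
    · rw [isSelfAdjoint_iff]
      simp only [star_add, star_mul, star_star, hss.star_eq]
      rw [add_comm]
    · rw [isSelfAdjoint_iff]
      simp only [star_add, star_mul, star_star, hrs.star_eq]
      noncomm_ring
    · have l1 : r * (s * (star Zo' * Zo') + star Zo' * Zo' * s) * r = s * K + K * s := by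
        rw [← hrQr, hs]; noncomm_ring
      have l2 : r * (r * (star Zo * Zo + star Vo * (star Zo * Zo) * Vo) * r) * r
          = s * (star Zo * Zo + star Vo * (star Zo * Zo) * Vo) * s := by
        rw [hs]; noncomm_ring
      rw [l1, l2, e]
      exact sub_le_self _ hpos
  · -- the Sylvester equations
    obtain ⟨U, hTU, hU1, -⟩ := BS.exists_polar hP1 T
    have hdz : ∀ x, ‖(P * Zo) x‖ ≤ ‖Zo‖ * ‖s x‖ := by
      intro x
      calc ‖(P * Zo) x‖ = ‖T (Zo x)‖ := BS.norm_ab T _
        _ = ‖Zo (Vo (s x))‖ := by rw [TZx]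
        _ ≤ ‖Zo‖ * ‖Vo (s x)‖ := ContinuousLinearMap.le_opNorm _ _
        _ = _ := by rw [nV]
    obtain ⟨Y, hY, -⟩ := BS.douglas hsd ‖Zo‖ (norm_nonneg _) hdz
    have hN : (Y - Zo) * s = P * Zo - Zo * s := by rw [sub_mul, hY]
    refine ⟨Y - Zo, U, hU1, ?_, ?_⟩
    · refine BS.cancel_right hsd ?_
      have hPU : P * star U = star T := by
        rw [hTU, star_mul, ← hPdef, hPs]
      have hTZ2 : star T * star Zi = star Zi * s * star Vo := by
        calc star T * star Zi = star Zi * s * star Vo * (star Zo * star Zi) := by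
              rw [sT]; noncomm_ring
          _ = _ := by rw [io', mul_one]
      have hPPZ : P * P * Zo = star Zi * s * star Vo * (star Zo * Zo) * Vo * s := by
        calc P * P * Zo = star T * (T * Zo) := by rw [hPP]; noncomm_ring
          _ = _ := by rw [TZ, sT]; noncomm_ring
      have hZiQ : star Zi * (star Zo * Zo) = Zo := by
        calc star Zi * (star Zo * Zo) = (star Zi * star Zo) * Zo := by noncomm_ring
          _ = _ := by rw [oi', one_mul]
      calc (P * (Y - Zo) + (Y - Zo) * s) * s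
          = P * ((Y - Zo) * s) + ((Y - Zo) * s) * s := by noncomm_ring
        _ = P * P * Zo - Zo * s * s := by rw [hN]; noncomm_ring
        _ = star Zi * s * star Vo * (star Zo * Zo) * Vo * s - star Zi * (star Zo * Zo) * s * s := by
            rw [hPPZ, hZiQ]
        _ = star Zi * s * star Vo * (star Zo * Zo) * Vo * s - star Zi * s * 1 * s
            - star Zi * (star Zo * Zo - 1) * s * s := by noncomm_ring
        _ = star Zi * s * star Vo * (star Zo * Zo) * Vo * s - star Zi * s * (star Vo * Vo) * s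
            - star Zi * (star Zo * Zo - 1) * s * s := by rw [VV]
        _ = (star Zi * s * star Vo) * (star Zo * Zo - 1) * Vo * s
            - star Zi * (star Zo * Zo - 1) * s * s := by noncomm_ring
        _ = (P * star U * star Zi) * (star Zo * Zo - 1) * Vo * s
            - star Zi * (star Zo * Zo - 1) * s * s := by rw [← hTZ2, ← hPU]
        _ = _ := by noncomm_ring
    · refine BS.cancel_right hrd ?_
      calc (R * (Zo' - Zo) + (Zo' - Zo) * r) * r
          = R * (Zo' * r) - R * Zo * r + (Zo' * r) * r - Zo * (r * r) := by noncomm_ring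
        _ = (R * R) * Zo - Zo * s := by rw [hZr, hs]; noncomm_ring
        _ = (Y - Zo) * s := by rw [hRR, hN]
        _ = _ := by rw [hs]; noncomm_ring

end Aluthge
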