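import Pool.Agent.Work.MP_943409_an.Interface

/-!
# MP_943409_an, block S: tools
-/

open Complex Filter Topology
open scoped ComplexOrder InnerProductSpace
set_option linter.unusedSectionVars false

namespace Aluthge
namespace BS

variable {H : Type} [NormedAddCommGroup H] [InnerProductSpace ℂ H] [CompleteSpace H]

theorem ab_nonneg (T : H →L[ℂ] H) : 0 ≤ ab T := CFC.sqrt_nonneg _
theorem rt_nonneg (T : H →L[ℂ] H) : 0 ≤ rt T := CFC.sqrt_nonneg _

theorem ab_mul_ab (T : H →L[ℂ] H) : ab T * ab T = star T * T :=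
  CFC.sqrt_mul_sqrt_self _ (star_mul_self_nonneg T)

theorem rt_mul_rt (T : H →L[ℂ] H) : rt T * rt T = ab T :=
  CFC.sqrt_mul_sqrt_self _ (ab_nonneg T)

theorem star_ab (T : H →L[ℂ] H) : star (ab T) = ab T := (IsSelfAdjoint.of_nonneg (ab_nonneg T)).star_eq
theorem star_rt (T : H →L[ℂ] H) : star (rt T) = rt T := (IsSelfAdjoint.of_nonneg (rt_nonneg T)).star_eq

theorem inner_star (A : H →L[ℂ] H) (x y : H) : ⟪x, star A y⟫_ℂ = ⟪A x, y⟫_ℂ := by
  rw [ContinuousLinearMap.star_eq_adjoint, ContinuousLinearMap.adjoint_inner_right]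

theorem inner_star' (A : H →L[ℂ] H) (x y : H) : ⟪star A x, y⟫_ℂ = ⟪x, A y⟫_ℂ := by
  rw [ContinuousLinearMap.star_eq_adjoint, ContinuousLinearMap.adjoint_inner_left]

theorem inner_star_mul (A : H →L[ℂ] H) (x : H) : ⟪x, (star A * A) x⟫_ℂ = (‖A x‖ : ℂ) ^ 2 := by
  rw [mul_apply_eq_comp, inner_star, inner_self_eq_norm_sq_to_K]
  rfl

theorem re_inner_star_mul (A : H →L[ℂ] H) (x : H) : (⟪x, (star A * A) x⟫_ℂ).re = ‖A x‖ ^ 2 := by
  rw [inner_star_mul]
  norm_cast

theorem le_iff_re (A B : H →L[ℂ] H) (hA : IsSelfAdjoint A) (hB : IsSelfAdjoint B) :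
    A ≤ B ↔ ∀ x, (⟪x, A x⟫_ℂ).re ≤ (⟪x, B x⟫_ℂ).re := by
  rw [ContinuousLinearMap.le_def, ContinuousLinearMap.isPositive_def']
  constructor
  · rintro ⟨-, h⟩ x
    have := h x
    rw [ContinuousLinearMap.reApplyInnerSelf_apply] at this
    have h2 : (0:ℝ) ≤ (⟪(B - A) x, x⟫_ℂ).re := this
    rw [← inner_conj_symm, Complex.conj_re, sub_apply, inner_sub_right, Complex.sub_re] at h2
    linarith
  · intro h
    refine ⟨hB.sub hA, fun x => ?_⟩
    rw [ContinuousLinearMap.reApplyInnerSelf_apply]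
    change (0:ℝ) ≤ (⟪(B - A) x, x⟫_ℂ).re
    rw [← inner_conj_symm, Complex.conj_re, sub_apply, inner_sub_right, Complex.sub_re]
    linarith [h x]

theorem re_inner_le_of_le {A B : H →L[ℂ] H} (h : A ≤ B) (x : H) :
    (⟪x, A x⟫_ℂ).re ≤ (⟪x, B x⟫_ℂ).re := by
  rw [ContinuousLinearMap.le_def, ContinuousLinearMap.isPositive_def'] at h
  have := h.2 x
  rw [ContinuousLinearMap.reApplyInnerSelf_apply] at this
  have h2 : (0:ℝ) ≤ (⟪(B - A) x, x⟫_ℂ).re := this
  rw [← inner_conj_symm, Complex.conj_re, sub_apply, inner_sub_right, Complex.sub_re] at h2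
  linarith

theorem norm_le_of_star_mul_le {A B : H →L[ℂ] H} (h : star A * A ≤ star B * B) (x : H) :
    ‖A x‖ ≤ ‖B x‖ := by
  have := re_inner_le_of_le h x
  rw [re_inner_star_mul, re_inner_star_mul] at this
  exact le_of_sq_le_sq this (norm_nonneg _)

theorem star_mul_le_of_norm_le {A B : H →L[ℂ] H} (h : ∀ x, ‖A x‖ ≤ ‖B x‖) :
    star A * A ≤ star B * B := by
  rw [le_iff_re _ _ (.star_mul_self A) (.star_mul_self B)]
  intro x
  rw [re_inner_star_mul, re_inner_star_mul]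
  exact pow_le_pow_left₀ (norm_nonneg _) (h x) 2

theorem dense_of_injective {r : H →L[ℂ] H} (hr : IsSelfAdjoint r) (h : Function.Injective r) :
    DenseRange r := by
  have h1 : (LinearMap.range r.toLinearMap).topologicalClosure = ⊤ := by
    rw [Submodule.topologicalClosure_eq_top_iff, Submodule.eq_bot_iff]
    intro y hy
    rw [Submodule.mem_orthogonal] at hy
    have h2 : ∀ x, ⟪x, r y⟫_ℂ = 0 := by
      intro x
      have := hy (r x) ⟨x, rfl⟩
      rw [← inner_star', hr.star_eq] 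
      exact this
    have h3 : r y = 0 := by
      have := h2 (r y)
      exact inner_self_eq_zero.mp this
    exact h (by rw [h3, map_zero])
  have := (Submodule.dense_iff_topologicalClosure_eq_top (s := LinearMap.range r.toLinearMap)).mpr h1
  exact this

theorem cancel_right {r A B : H →L[ℂ] H} (hd : DenseRange r) (h : A * r = B * r) : A = B := by
  have h1 : (A : H → H) = B := hd.equalizer A.continuous B.continuous (by
    funext x
    exact congrArg (fun F : H →L[ℂ] H => F x) h)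
  exact DFunLike.coe_injective h1

theorem cancel_left {r A B : H →L[ℂ] H} (hi : Function.Injective r) (h : r * A = r * B) : A = B := by
  ext x
  exact hi (congrArg (fun F : H →L[ℂ] H => F x) h)

theorem le_cancel {r A B : H →L[ℂ] H} (hr : IsSelfAdjoint r) (hd : DenseRange r)
    (hA : IsSelfAdjoint A) (hB : IsSelfAdjoint B) (h : r * A * r ≤ r * B * r) : A ≤ B := by
  rw [le_iff_re _ _ hA hB]
  have h1 : ∀ x, (⟪r x, A (r x)⟫_ℂ).re ≤ (⟪r x, B (r x)⟫_ℂ).re := by
    intro x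
    have := re_inner_le_of_le h x
    simp only [mul_apply_eq_comp] at this
    have h2 : ∀ C : H →L[ℂ] H, ⟪x, r (C (r x))⟫_ℂ = ⟪r x, C (r x)⟫_ℂ := by
      intro C
      have := inner_star r x (C (r x))
      rwa [hr.star_eq] at this
    rw [h2, h2] at this
    exact this
  intro x
  refine hd.induction_on (p := fun y => (⟪y, A y⟫_ℂ).re ≤ (⟪y, B y⟫_ℂ).re) x ?_ h1
  apply isClosed_le
  · fun_prop
  · fun_prop

theorem douglas {r A : H →L[ℂ] H} (hd : DenseRange r) (c : ℝ) (hc : 0 ≤ c) (h : ∀ x, ‖A x‖ ≤ c * ‖r x‖) :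
    ∃ Z : H →L[ℂ] H, Z * r = A ∧ ‖Z‖ ≤ c := by
  refine ⟨(A : H →ₗ[ℂ] H).extendOfNorm (r : H →ₗ[ℂ] H), ?_, ?_⟩
  · ext x
    exact LinearMap.extendOfNorm_eq (f := (A : H →ₗ[ℂ] H)) (e := (r : H →ₗ[ℂ] H)) hd ⟨c, h⟩ x
  · exact LinearMap.opNorm_extendOfNorm_le (f := (A : H →ₗ[ℂ] H)) (e := (r : H →ₗ[ℂ] H)) hd hc h

end BS
end Aluthge
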