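import Pool.Agent.Work.MP_943409_an.Interface

/-!
Multiplication operators on `L²(ℝ)`.
-/

open Complex MeasureTheory Filter Topology
open scoped ComplexOrder InnerProductSpace ComplexConjugate ENNReal

namespace Aluthge

theorem exists_yisMul {m : ℝ → ℝ} (hm : Measurable m) {C : ℝ} (hC : ∀ x, |m x| ≤ C) :
    ∃ M : E →L[ℂ] E, IsMul m M := by
  have h : MemLp (fun x => (m x : ℂ)) ∞ (volume : Measure ℝ) := by
    refine memLp_top_of_bound (C := C) (Complex.measurable_ofReal.comp hm).aestronglyMeasurable ?_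
    filter_upwards with x
    simpa using hC x
  refine ⟨(ContinuousLinearMap.mul ℂ ℂ).holderL volume ∞ 2 2 h.toLp, fun g => ?_⟩
  have h1 := (ContinuousLinearMap.mul ℂ ℂ).coeFn_holder (r := 2) h.toLp g
  filter_upwards [h1, h.coeFn_toLp] with x hx hx'
  have h2 : ((ContinuousLinearMap.mul ℂ ℂ).holderL volume ∞ 2 2 h.toLp) g
      = (ContinuousLinearMap.mul ℂ ℂ).holder 2 h.toLp g := rfl
  rw [h2, hx, hx']
  rfl

theorem IsMul.ext {m m' : ℝ → ℝ} {M M' : E →L[ℂ] E} (h : IsMul m M) (h' : IsMul m' M')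
    (hm : ∀ x, m x = m' x) : M = M' := by
  ext1 g
  apply Lp.ext
  filter_upwards [h g, h' g] with x hx hx'
  rw [hx, hx', hm x]

theorem IsMul.congr {m m' : ℝ → ℝ} {M : E →L[ℂ] E} (h : IsMul m M)
    (hm : ∀ x, m x = m' x) : IsMul m' M := by
  intro g
  filter_upwards [h g] with x hx
  rw [hx, hm x]

theorem IsMul.ymul {m m' : ℝ → ℝ} {M M' : E →L[ℂ] E} (h : IsMul m M) (h' : IsMul m' M') :
    IsMul (fun x => m x * m' x) (M * M') := by
  intro g
  filter_upwards [h (M' g), h' g] with x hx hx'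
  rw [mul_apply_eq_comp, hx, hx']
  push_cast
  ring

theorem IsMul.yadd {m m' : ℝ → ℝ} {M M' : E →L[ℂ] E} (h : IsMul m M) (h' : IsMul m' M') :
    IsMul (fun x => m x + m' x) (M + M') := by
  intro g
  filter_upwards [h g, h' g, Lp.coeFn_add (M g) (M' g)] with x hx hx' h3
  rw [add_apply, h3, Pi.add_apply, hx, hx']
  push_cast
  ring

theorem IsMul.ysub {m m' : ℝ → ℝ} {M M' : E →L[ℂ] E} (h : IsMul m M) (h' : IsMul m' M') :
    IsMul (fun x => m x - m' x) (M - M') := by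
  intro g
  filter_upwards [h g, h' g, Lp.coeFn_sub (M g) (M' g)] with x hx hx' h3
  rw [sub_apply, h3, Pi.sub_apply, hx, hx']
  push_cast
  ring

theorem IsMul.ysmul {m : ℝ → ℝ} {M : E →L[ℂ] E} (h : IsMul m M) (c : ℝ) :
    IsMul (fun x => c * m x) ((c : ℂ) • M) := by
  intro g
  filter_upwards [h g, Lp.coeFn_smul (c : ℂ) (M g)] with x hx h3
  rw [smul_apply, h3, Pi.smul_apply, hx]
  simp [mul_assoc]

theorem isMul_one : IsMul (fun _ => 1) (1 : E →L[ℂ] E) := by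
  intro g
  filter_upwards with x
  simp

theorem isMul_zero : IsMul (fun _ => 0) (0 : E →L[ℂ] E) := by
  intro g
  filter_upwards [Lp.coeFn_zero ℂ 2 (volume : Measure ℝ)] with x hx
  simp [hx]

theorem IsMul.comm {m m' : ℝ → ℝ} {M M' : E →L[ℂ] E} (h : IsMul m M) (h' : IsMul m' M') :
    M * M' = M' * M :=
  (h.ymul h').ext (h'.ymul h) fun x => mul_comm _ _

theorem IsMul.sum {ι : Type*} (s : Finset ι) {m : ι → ℝ → ℝ} {M : ι → E →L[ℂ] E}
    (h : ∀ i, IsMul (m i) (M i)) : IsMul (fun x => ∑ i ∈ s, m i x) (∑ i ∈ s, M i) := by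
  classical
  induction s using Finset.induction_on with
  | empty => simpa using isMul_zero
  | insert a s ha ih =>
    rw [Finset.sum_insert ha]
    exact ((h a).yadd ih).congr fun x => by rw [Finset.sum_insert ha]

theorem IsMul.norm_apply_le {m : ℝ → ℝ} {M : E →L[ℂ] E} (h : IsMul m M) {C : ℝ}
    (hC : ∀ x, |m x| ≤ C) (g : E) : ‖M g‖ ≤ C * ‖g‖ := by
  apply Lp.norm_le_mul_norm_of_ae_le_mul
  filter_upwards [h g] with x hx
  rw [hx, norm_mul]
  gcongr
  simpa using hC x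

theorem IsMul.ynorm_le {m : ℝ → ℝ} {M : E →L[ℂ] E} (h : IsMul m M) {C : ℝ}
    (hC : ∀ x, |m x| ≤ C) : ‖M‖ ≤ C :=
  M.opNorm_le_bound (le_trans (abs_nonneg _) (hC 0)) (h.norm_apply_le hC)

theorem IsMul.inner_left {m : ℝ → ℝ} {M : E →L[ℂ] E} (h : IsMul m M) (f g : E) :
    ⟪M f, g⟫_ℂ = ⟪f, M g⟫_ℂ := by
  rw [L2.inner_def, L2.inner_def]
  apply integral_congr_ae
  filter_upwards [h f, h g] with x hx hx'
  rw [hx, hx']
  simp
  ring

theorem IsMul.selfAdjoint {m : ℝ → ℝ} {M : E →L[ℂ] E} (h : IsMul m M) : IsSelfAdjoint M := by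
  rw [ContinuousLinearMap.isSelfAdjoint_iff_isSymmetric]
  exact fun f g => h.inner_left f g

theorem IsMul.star {m : ℝ → ℝ} {M : E →L[ℂ] E} (h : IsMul m M) : star M = M :=
  h.selfAdjoint.star_eq

theorem IsMul.inner_self {m : ℝ → ℝ} {M : E →L[ℂ] E} (h : IsMul m M) (g : E) :
    ⟪M g, g⟫_ℂ = ((∫ x, m x * ‖g x‖ ^ 2 : ℝ) : ℂ) := by
  rw [L2.inner_def, ← integral_complex_ofReal]
  apply integral_congr_ae
  filter_upwards [h g] with x hx
  rw [hx]
  have h2 : ((‖g x‖ ^ 2 : ℝ) : ℂ) = conj (g x) * g x := by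
    rw [← Complex.normSq_eq_conj_mul_self, Complex.normSq_eq_norm_sq]
  push_cast at h2 ⊢
  rw [h2]
  simp
  ring

theorem IsMul.ynonneg {m : ℝ → ℝ} {M : E →L[ℂ] E} (h : IsMul m M) (hm : ∀ x, 0 ≤ m x) :
    0 ≤ M := by
  rw [ContinuousLinearMap.nonneg_iff_isPositive]
  refine ⟨fun f g => h.inner_left f g, fun g => ?_⟩
  change 0 ≤ (⟪M g, g⟫_ℂ).re
  rw [h.inner_self g, Complex.ofReal_re]
  exact integral_nonneg fun x => mul_nonneg (hm x) (by positivity)

theorem IsMul.le {m m' : ℝ → ℝ} {M M' : E →L[ℂ] E} (h : IsMul m M) (h' : IsMul m' M')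
    (hm : ∀ x, m x ≤ m' x) : M ≤ M' := by
  rw [← sub_nonneg]
  exact (h'.ysub h).ynonneg fun x => sub_nonneg.2 (hm x)

theorem IsMul.yinjective {m : ℝ → ℝ} {M : E →L[ℂ] E} (h : IsMul m M) (hm : ∀ x, m x ≠ 0) :
    Function.Injective M := by
  rw [injective_iff_map_eq_zero]
  intro g hg
  apply Lp.ext
  filter_upwards [h g, Lp.coeFn_zero ℂ 2 (volume : Measure ℝ)] with x hx h0
  rw [hg, h0] at hx
  rw [h0]
  have h1 : (m x : ℂ) ≠ 0 := by exact_mod_cast hm x
  have h2 : (m x : ℂ) * g x = 0 := hx.symm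
  simpa [h1] using h2

/-- Dominated convergence for multiplication operators. -/
theorem IsMul.tendsto {m : ℕ → ℝ → ℝ} {m₀ : ℝ → ℝ} {M : ℕ → E →L[ℂ] E} {M₀ : E →L[ℂ] E}
    (h : ∀ n, IsMul (m n) (M n)) (h₀ : IsMul m₀ M₀) {C : ℝ} (hC : ∀ n x, |m n x - m₀ x| ≤ C)
    (hlim : ∀ x, Tendsto (fun n => m n x) atTop (𝓝 (m₀ x))) (g : E) :
    Tendsto (fun n => M n g) atTop (𝓝 (M₀ g)) := by
  rw [tendsto_iff_norm_sub_tendsto_zero]
  have hg : Integrable (fun x => ‖g x‖ ^ 2) (volume : Measure ℝ) :=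
    (memLp_two_iff_integrable_sq_norm (Lp.memLp g).1).1 (Lp.memLp g)
  have key : ∀ n, ‖M n g - M₀ g‖ ^ 2 = ∫ x, (m n x - m₀ x) ^ 2 * ‖g x‖ ^ 2 := by
    intro n
    have h1 := (h n).ysub h₀
    have h2 := (h1.ymul h1).inner_self g
    have h3 : ⟪((M n - M₀) * (M n - M₀)) g, g⟫_ℂ = ((‖M n g - M₀ g‖ ^ 2 : ℝ) : ℂ) := by
      rw [mul_apply_eq_comp, h1.inner_left, inner_self_eq_norm_sq_to_K]
      simp
    rw [h3] at h2
    have h4 := Complex.ofReal_injective h2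
    rw [h4]
    congr 1
    ext x
    ring
  have hC0 : 0 ≤ C := le_trans (abs_nonneg _) (hC 0 0)
  have lim : Tendsto (fun n => ∫ x, (m n x - m₀ x) ^ 2 * ‖g x‖ ^ 2) atTop
      (𝓝 (∫ x : ℝ, (0 : ℝ))) := by
    apply tendsto_integral_of_dominated_convergence (fun x => C ^ 2 * ‖g x‖ ^ 2)
    · intro n
      have h1 := (h n).ysub h₀
      have h2 := h1 g
      have h3 : (fun x => (m n x - m₀ x) ^ 2 * ‖g x‖ ^ 2)
          =ᵐ[volume] fun x => ‖((M n - M₀) g) x‖ ^ 2 := by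
        filter_upwards [h2] with x hx
        rw [hx, norm_mul, mul_pow, Complex.norm_real, Real.norm_eq_abs, sq_abs]
      exact ((Lp.aestronglyMeasurable ((M n - M₀) g)).norm.pow 2).congr h3.symm
    · exact hg.const_mul _
    · intro n
      filter_upwards with x
      rw [Real.norm_eq_abs, abs_mul, abs_of_nonneg (sq_nonneg ‖g x‖), abs_of_nonneg (sq_nonneg _)]
      have h1 : (m n x - m₀ x) ^ 2 ≤ C ^ 2 := by
        rw [← sq_abs]
        exact pow_le_pow_left₀ (abs_nonneg _) (hC n x) 2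
      exact mul_le_mul_of_nonneg_right h1 (by positivity)
    · filter_upwards with x
      have := (((hlim x).sub_const (m₀ x)).pow 2).mul_const (‖g x‖ ^ 2)
      simpa using this
  rw [integral_zero] at lim
  have h5 : Tendsto (fun n => ‖M n g - M₀ g‖ ^ 2) atTop (𝓝 0) := by
    simpa only [key] using lim
  have h6 := (Real.continuous_sqrt.tendsto 0).comp h5
  simpa [Function.comp_def, Real.sqrt_sq (norm_nonneg _)] using h6

end Aluthge
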